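import Pool.Agent.H24.ID.Ginibre
set_option autoImplicit false

/-! The function `1 - cos 2πθ` on the circle, and a positive definite bump. -/

namespace H24.ID

open Finset

/-- a real representative of size at most `1/2` -/
theorem exists_rep (a : UnitAddCircle) :
    ∃ t : ℝ, |t| ≤ 1 / 2 ∧ (t : UnitAddCircle) = a ∧ ‖a‖ = |t| := by
  induction a using QuotientAddGroup.induction_on with
  | H x =>
    refine ⟨x - round x, abs_sub_round x, ?_, UnitAddCircle.norm_eq⟩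
    have h1 : ((round x : ℝ) : UnitAddCircle) = 0 := by
      rw [AddCircle.coe_eq_zero_iff]
      exact ⟨round x, by simp⟩
    change ((x - (round x : ℝ) : ℝ) : UnitAddCircle) = (x : UnitAddCircle)
    rw [AddCircle.coe_sub, h1, sub_zero]

/-- `1 - cos 2πθ` -/
noncomputable def u1 (a : UnitAddCircle) : ℝ := 1 - (AddCircle.toCircle a : ℂ).re

theorem u1_coe (t : ℝ) : u1 (t : UnitAddCircle) = 1 - Real.cos (2 * Real.pi * t) := by
  rw [u1, AddCircle.toCircle_apply_mk, Circle.coe_exp, Complex.exp_ofReal_mul_I_re]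
  simp

theorem u1_nonneg (a : UnitAddCircle) : 0 ≤ u1 a := by
  obtain ⟨t, -, rfl, -⟩ := exists_rep a
  rw [u1_coe]
  linarith [Real.cos_le_one (2 * Real.pi * t)]

theorem u1_le_two (a : UnitAddCircle) : u1 a ≤ 2 := by
  obtain ⟨t, -, rfl, -⟩ := exists_rep a
  rw [u1_coe]
  linarith [Real.neg_one_le_cos (2 * Real.pi * t)]

theorem u1_zero : u1 0 = 0 := by
  have := u1_coe 0
  simpa using this

theorem u1_neg (a : UnitAddCircle) : u1 (-a) = u1 a := by
  obtain ⟨t, -, rfl, -⟩ := exists_rep a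
  rw [← AddCircle.coe_neg, u1_coe, u1_coe, mul_neg, Real.cos_neg]

theorem le_u1 (a : UnitAddCircle) : 8 * ‖a‖ ^ 2 ≤ u1 a := by
  obtain ⟨t, ht, rfl, hn⟩ := exists_rep a
  rw [u1_coe, hn, sq_abs]
  have h1 : Real.cos (2 * Real.pi * t) = 1 - 2 * Real.sin (Real.pi * |t|) ^ 2 := by
    have h2 : Real.cos (2 * Real.pi * t) = Real.cos (2 * (Real.pi * |t|)) := by
      rw [← Real.cos_abs (2 * Real.pi * t), abs_mul, abs_of_pos Real.two_pi_pos]
      ring_nf
    rw [h2, Real.cos_two_mul, Real.sin_sq]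
    ring
  have h2 : 2 * |t| ≤ Real.sin (Real.pi * |t|) := by
    have h3 := Real.mul_le_sin (x := Real.pi * |t|) (by positivity)
      (by nlinarith [Real.pi_pos])
    have h4 : 2 / Real.pi * (Real.pi * |t|) = 2 * |t| := by
      field_simp
    linarith
  have h3 : (2 * |t|) ^ 2 ≤ Real.sin (Real.pi * |t|) ^ 2 := pow_le_pow_left₀ (by positivity) h2 2
  rw [mul_pow, sq_abs] at h3
  rw [h1]
  linarith

theorem u1_le (a : UnitAddCircle) : u1 a ≤ 20 * ‖a‖ ^ 2 := by
  obtain ⟨t, ht, rfl, hn⟩ := exists_rep a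
  rw [u1_coe, hn, sq_abs]
  have h1 := Real.one_sub_sq_div_two_le_cos (x := 2 * Real.pi * t)
  have h2 : Real.pi ^ 2 ≤ 10 := by
    have := Real.pi_lt_d2
    nlinarith [Real.pi_pos]
  nlinarith [sq_nonneg t]

theorem u1_add_le (a b : UnitAddCircle) : u1 (a + b) ≤ 2 * (u1 a + u1 b) := by
  rw [u1, u1, u1, AddCircle.toCircle_add, Circle.coe_mul, Complex.mul_re]
  have ha : Complex.normSq (AddCircle.toCircle a : ℂ) = 1 := Circle.normSq_coe _
  have hb : Complex.normSq (AddCircle.toCircle b : ℂ) = 1 := Circle.normSq_coe _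
  rw [Complex.normSq_apply] at ha hb
  generalize (AddCircle.toCircle a : ℂ) = z at *
  generalize (AddCircle.toCircle b : ℂ) = w at *
  have e : (1 - 2 * z.re + (z.re * w.re - z.im * w.im)) ^ 2 +
      (-2 * z.im + (z.re * w.im + z.im * w.re)) ^ 2 =
      2 * (2 * ((1 - z.re) + (1 - w.re)) - (1 - (z.re * w.re - z.im * w.im))) := by
    linear_combination (4 - 4 * w.re + w.re * w.re + w.im * w.im) * ha + hb
  nlinarith [sq_nonneg (1 - 2 * z.re + (z.re * w.re - z.im * w.im)),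
    sq_nonneg (-2 * z.im + (z.re * w.im + z.im * w.re))]

section Char

variable {Γ : Type*} [AddCommGroup Γ]

/-- the complex character attached to a circle valued one -/
noncomputable def toAC (χ : Γ →+ UnitAddCircle) : AddChar Γ ℂ where
  toFun x := (AddCircle.toCircle (χ x) : ℂ)
  map_zero_eq_one' := by simp
  map_add_eq_mul' := by
    intro x y
    rw [map_add, AddCircle.toCircle_add, Circle.coe_mul]

theorem u1_char (χ : Γ →+ UnitAddCircle) (x : Γ) : u1 (χ x) = 1 - (toAC χ x).re := rfl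

variable [Fintype Γ]

/-- autocorrelations are positive definite, also after subtracting their mean -/
theorem pdc_autocorr (g : Γ → ℝ) :
    PDc (fun x => ∑ z, g z * g (z + x) - (∑ z, g z) ^ 2 / Fintype.card Γ) := by
  classical
  have hc : (0 : ℝ) < Fintype.card Γ := by exact_mod_cast Fintype.card_pos_iff.2 ⟨0⟩
  let F : AddChar Γ ℂ → ℂ := fun ψ => ∑ z, (g z : ℂ) * ψ z
  have h1 : ∀ x : Γ, ∑ ψ : AddChar Γ ℂ, Complex.normSq (F ψ) * (ψ x).re =
      Fintype.card Γ * ∑ z, g z * g (z + x) := by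
    intro x
    have h2 : ∑ ψ : AddChar Γ ℂ, (F ψ * (starRingEnd ℂ) (F ψ)) * ψ x =
        ((Fintype.card Γ * ∑ z, g z * g (z + x) : ℝ) : ℂ) := by
      have h3 : ∀ ψ : AddChar Γ ℂ, (F ψ * (starRingEnd ℂ) (F ψ)) * ψ x =
          ∑ z, ∑ w, ((g z : ℂ) * g w) * ψ (z - w + x) := by
        intro ψ
        simp only [F]
        rw [map_sum, Finset.sum_mul_sum, Finset.sum_mul]
        refine Finset.sum_congr rfl fun z _ => ?_
        rw [Finset.sum_mul]
        refine Finset.sum_congr rfl fun w _ => ?_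
        rw [map_mul, Complex.conj_ofReal, sub_eq_add_neg, AddChar.map_add_eq_mul,
          AddChar.map_add_eq_mul, AddChar.map_neg_eq_conj]
        ring
      rw [Finset.sum_congr rfl fun ψ _ => h3 ψ, Finset.sum_comm]
      have h4 : ∀ z : Γ, ∑ ψ : AddChar Γ ℂ, ∑ w, ((g z : ℂ) * g w) * ψ (z - w + x) =
          Fintype.card Γ * (g z * g (z + x)) := by
        intro z
        rw [Finset.sum_comm]
        simp_rw [← Finset.mul_sum]
        rw [Finset.sum_eq_single (z + x)]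
        · rw [AddChar.sum_apply_eq_ite, if_pos (by abel)]
          ring
        · intro w _ hw
          rw [AddChar.sum_apply_eq_ite, if_neg, mul_zero]
          intro h
          apply hw
          have : w = z + x := by
            have h5 : z + x - w = 0 := by rw [← h]; abel
            exact (sub_eq_zero.1 h5).symm
          exact this
        · intro h
          exact absurd (Finset.mem_univ _) h
      rw [Finset.sum_congr rfl fun z _ => h4 z, ← Finset.mul_sum]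
      push_cast
      rfl
    have h5 := congrArg Complex.re h2
    rw [Complex.re_sum, Complex.ofReal_re] at h5
    rw [← h5]
    refine Finset.sum_congr rfl fun ψ _ => ?_
    rw [Complex.mul_conj, Complex.re_ofReal_mul]
  have h6 : ∀ x : Γ, ∑ z, g z * g (z + x) - (∑ z, g z) ^ 2 / Fintype.card Γ =
      ∑ ψ ∈ (Finset.univ.erase (0 : AddChar Γ ℂ)),
        (Complex.normSq (F ψ) / Fintype.card Γ) * (ψ x).re := by
    intro x
    have h7 := h1 x
    rw [← Finset.add_sum_erase _ _ (Finset.mem_univ (0 : AddChar Γ ℂ))] at h7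
    have h8 : Complex.normSq (F 0) = (∑ z, g z) ^ 2 := by
      have : F 0 = ((∑ z, g z : ℝ) : ℂ) := by
        simp only [F, AddChar.zero_apply, mul_one]
        push_cast
        rfl
      rw [this, Complex.normSq_ofReal, sq]
    rw [h8, AddChar.zero_apply, Complex.one_re, mul_one] at h7
    have h9 : ∑ ψ ∈ (Finset.univ.erase (0 : AddChar Γ ℂ)),
        (Complex.normSq (F ψ) / Fintype.card Γ) * (ψ x).re =
        (∑ ψ ∈ (Finset.univ.erase (0 : AddChar Γ ℂ)),
        Complex.normSq (F ψ) * (ψ x).re) / Fintype.card Γ := by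
      rw [Finset.sum_div]
      refine Finset.sum_congr rfl fun ψ _ => ?_
      ring
    rw [h9]
    field_simp
    linarith
  have h10 : (fun x => ∑ z, g z * g (z + x) - (∑ z, g z) ^ 2 / Fintype.card Γ) =
      fun x : Γ => ∑ ψ ∈ (Finset.univ.erase (0 : AddChar Γ ℂ)),
        (Complex.normSq (F ψ) / Fintype.card Γ) * (ψ x).re := funext h6
  rw [h10]
  refine PDc.sum _ _ fun ψ _ => PDc.re _ (div_nonneg (Complex.normSq_nonneg _) hc.le) ψ

/-- triangle function of a character -/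
noncomputable def tri (χ : Γ →+ UnitAddCircle) (z : Γ) : ℝ := max 0 (1 / 32 - ‖χ z‖)

omit [Fintype Γ] in
theorem tri_nonneg (χ : Γ →+ UnitAddCircle) (z : Γ) : 0 ≤ tri χ z := le_max_left _ _

omit [Fintype Γ] in
theorem tri_le (χ : Γ →+ UnitAddCircle) (z : Γ) : tri χ z ≤ 1 / 32 :=
  max_le (by norm_num) (by linarith [norm_nonneg (χ z)])

omit [Fintype Γ] in
theorem tri_lip (χ : Γ →+ UnitAddCircle) (z x : Γ) :
    (tri χ z - tri χ (z + x)) ^ 2 ≤ ‖χ x‖ ^ 2 := by
  have h1 : |tri χ z - tri χ (z + x)| ≤ ‖χ x‖ := by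
    refine (abs_max_sub_max_le_max _ _ _ _).trans ?_
    rw [sub_self, abs_zero]
    refine max_le (norm_nonneg _) ?_
    have h2 : (1 / 32 - ‖χ z‖) - (1 / 32 - ‖χ (z + x)‖) = ‖χ (z + x)‖ - ‖χ z‖ := by ring
    rw [h2]
    refine (abs_norm_sub_norm_le _ _).trans ?_
    rw [map_add, add_sub_cancel_left]
  rw [← sq_abs]
  exact pow_le_pow_left₀ (abs_nonneg _) h1 2

theorem card_small (χ : Γ →+ UnitAddCircle) :
    (Fintype.card Γ : ℝ) / 64 ≤ (Finset.univ.filter fun z : Γ => ‖χ z‖ ≤ 1 / 64).card := by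
  classical
  have h1 : ∀ a : UnitAddCircle, ∃ t : ℝ, 0 ≤ t ∧ t < 1 ∧ (t : UnitAddCircle) = a := by
    intro a
    obtain ⟨t, ht, rfl, -⟩ := exists_rep a
    refine ⟨Int.fract t, Int.fract_nonneg t, Int.fract_lt_one t, ?_⟩
    have h2 : (((⌊t⌋ : ℤ) : ℝ) : UnitAddCircle) = 0 := by
      rw [AddCircle.coe_eq_zero_iff]
      exact ⟨⌊t⌋, by simp⟩
    have h3 : Int.fract t = t - ⌊t⌋ := rfl
    rw [h3, AddCircle.coe_sub, h2, sub_zero]
  choose t ht0 ht1 hta using h1
  let f : Γ → ℕ := fun z => ⌊64 * t (χ z)⌋₊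
  have hf : ∀ z ∈ (Finset.univ : Finset Γ), f z ∈ Finset.range 64 := by
    intro z _
    rw [Finset.mem_range]
    have : (⌊64 * t (χ z)⌋₊ : ℝ) < 64 :=
      lt_of_le_of_lt (Nat.floor_le (by have := ht0 (χ z); positivity)) (by linarith [ht1 (χ z)])
    exact_mod_cast this
  obtain ⟨y, -, hy⟩ := Finset.exists_le_card_fiber_of_nsmul_le_card_of_maps_to (M := ℝ)
    (b := (Fintype.card Γ : ℝ) / 64) hf ⟨0, by simp⟩ (by
      rw [Finset.card_range, Finset.card_univ, nsmul_eq_mul]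
      push_cast
      linarith)
  have hc : (0 : ℝ) < Fintype.card Γ := by exact_mod_cast Fintype.card_pos_iff.2 ⟨0⟩
  have hne : (Finset.univ.filter fun z : Γ => f z = y).Nonempty := by
    rw [← Finset.card_pos]
    have : (0 : ℝ) < ((Finset.univ.filter fun z : Γ => f z = y).card : ℝ) := by
      linarith
    exact_mod_cast this
  obtain ⟨z₀, hz₀⟩ := hne
  refine hy.trans ?_
  have : (Finset.univ.filter fun z : Γ => f z = y).card ≤
      (Finset.univ.filter fun z : Γ => ‖χ z‖ ≤ 1 / 64).card := by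
    refine Finset.card_le_card_of_injOn (fun z => z - z₀) ?_ ?_
    · intro z hz
      simp only [Finset.coe_filter, Finset.mem_univ, true_and, Set.mem_ofPred_eq,
        Finset.mem_filter] at hz hz₀ ⊢
      rw [map_sub, ← hta (χ z), ← hta (χ z₀), ← AddCircle.coe_sub, UnitAddCircle.norm_eq]
      have h5 := round_le (t (χ z) - t (χ z₀)) 0
      rw [Int.cast_zero, sub_zero] at h5
      refine h5.trans ?_
      have e1 := Nat.floor_le (show 0 ≤ 64 * t (χ z) by have := ht0 (χ z); positivity)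
      have e2 := Nat.floor_le (show 0 ≤ 64 * t (χ z₀) by have := ht0 (χ z₀); positivity)
      have e3 := Nat.lt_floor_add_one (64 * t (χ z))
      have e4 := Nat.lt_floor_add_one (64 * t (χ z₀))
      have e5 : (⌊64 * t (χ z)⌋₊ : ℝ) = ⌊64 * t (χ z₀)⌋₊ := by
        have : f z = f z₀ := hz.trans hz₀.symm
        exact_mod_cast this
      rw [abs_le]
      constructor <;> linarith
    · intro a _ b _ h
      simpa using h
  exact_mod_cast this

theorem sum_tri_ge (χ : Γ →+ UnitAddCircle) :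
    (Fintype.card Γ : ℝ) / 4096 ≤ ∑ z, tri χ z := by
  classical
  have h1 := card_small χ
  have h2 : ∑ z ∈ (Finset.univ.filter fun z : Γ => ‖χ z‖ ≤ 1 / 64), (1 / 64 : ℝ) ≤
      ∑ z ∈ (Finset.univ.filter fun z : Γ => ‖χ z‖ ≤ 1 / 64), tri χ z := by
    refine Finset.sum_le_sum fun z hz => ?_
    rw [Finset.mem_filter] at hz
    refine le_trans ?_ (le_max_right _ _)
    linarith [hz.2]
  have h3 : ∑ z ∈ (Finset.univ.filter fun z : Γ => ‖χ z‖ ≤ 1 / 64), tri χ z ≤ ∑ z, tri χ z :=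
    Finset.sum_le_sum_of_subset_of_nonneg (Finset.filter_subset _ _)
      fun z _ _ => tri_nonneg χ z
  rw [Finset.sum_const, nsmul_eq_mul] at h2
  linarith

theorem sum_tri_sq_ge (χ : Γ →+ UnitAddCircle) :
    (Fintype.card Γ : ℝ) / 2 ^ 18 ≤ ∑ z, tri χ z ^ 2 := by
  classical
  have h1 := card_small χ
  have h2 : ∑ z ∈ (Finset.univ.filter fun z : Γ => ‖χ z‖ ≤ 1 / 64), ((1 / 64 : ℝ)) ^ 2 ≤
      ∑ z ∈ (Finset.univ.filter fun z : Γ => ‖χ z‖ ≤ 1 / 64), tri χ z ^ 2 := by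
    refine Finset.sum_le_sum fun z hz => ?_
    rw [Finset.mem_filter] at hz
    refine pow_le_pow_left₀ (by norm_num) (le_trans ?_ (le_max_right _ _)) 2
    linarith [hz.2]
  have h3 : ∑ z ∈ (Finset.univ.filter fun z : Γ => ‖χ z‖ ≤ 1 / 64), tri χ z ^ 2 ≤
      ∑ z, tri χ z ^ 2 :=
    Finset.sum_le_sum_of_subset_of_nonneg (Finset.filter_subset _ _)
      fun z _ _ => sq_nonneg _
  rw [Finset.sum_const, nsmul_eq_mul] at h2
  linarith

theorem sum_tri_sq_pos (χ : Γ →+ UnitAddCircle) : 0 < ∑ z, tri χ z ^ 2 := by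
  have hc : (0 : ℝ) < Fintype.card Γ := by exact_mod_cast Fintype.card_pos_iff.2 ⟨0⟩
  have := sum_tri_sq_ge χ
  have h2 : 0 < (Fintype.card Γ : ℝ) / 2 ^ 18 := by positivity
  linarith

/-- the positive definite bump -/
noncomputable def bmp (χ : Γ →+ UnitAddCircle) (x : Γ) : ℝ :=
  (∑ z, tri χ z * tri χ (z + x)) / ∑ z, tri χ z ^ 2

theorem bmp_nonneg (χ : Γ →+ UnitAddCircle) (x : Γ) : 0 ≤ bmp χ x :=
  div_nonneg (Finset.sum_nonneg fun z _ => mul_nonneg (tri_nonneg _ _) (tri_nonneg _ _))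
    (sum_tri_sq_pos χ).le

theorem one_sub_bmp (χ : Γ →+ UnitAddCircle) (x : Γ) :
    1 - bmp χ x = (∑ z, (tri χ z - tri χ (z + x)) ^ 2) / (2 * ∑ z, tri χ z ^ 2) := by
  have h0 := (sum_tri_sq_pos χ).ne'
  have h1 : ∑ z, tri χ (z + x) ^ 2 = ∑ z, tri χ z ^ 2 := by
    rw [← Equiv.sum_comp (Equiv.addRight x) (fun z => tri χ z ^ 2)]
    rfl
  have h2 : ∑ z, (tri χ z - tri χ (z + x)) ^ 2 =
      2 * ∑ z, tri χ z ^ 2 - 2 * ∑ z, tri χ z * tri χ (z + x) := by
    have : ∀ z, (tri χ z - tri χ (z + x)) ^ 2 =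
        tri χ z ^ 2 + tri χ (z + x) ^ 2 - 2 * (tri χ z * tri χ (z + x)) := fun z => by ring
    simp only [this, Finset.sum_sub_distrib, Finset.sum_add_distrib, ← Finset.mul_sum]
    rw [h1]
    ring
  rw [bmp, h2]
  field_simp

theorem bmp_le_one (χ : Γ →+ UnitAddCircle) (x : Γ) : bmp χ x ≤ 1 := by
  have h1 := one_sub_bmp χ x
  have h2 : 0 ≤ (∑ z, (tri χ z - tri χ (z + x)) ^ 2) / (2 * ∑ z, tri χ z ^ 2) :=
    div_nonneg (Finset.sum_nonneg fun z _ => sq_nonneg _)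
      (mul_nonneg zero_le_two (sum_tri_sq_pos χ).le)
  linarith

theorem one_sub_bmp_le (χ : Γ →+ UnitAddCircle) (x : Γ) :
    1 - bmp χ x ≤ 2 ^ 14 * u1 (χ x) := by
  have hc : (0 : ℝ) < Fintype.card Γ := by exact_mod_cast Fintype.card_pos_iff.2 ⟨0⟩
  rw [one_sub_bmp]
  have h1 : ∑ z, (tri χ z - tri χ (z + x)) ^ 2 ≤ Fintype.card Γ * ‖χ x‖ ^ 2 := by
    calc ∑ z, (tri χ z - tri χ (z + x)) ^ 2 ≤ ∑ _z : Γ, ‖χ x‖ ^ 2 :=
          Finset.sum_le_sum fun z _ => tri_lip χ z x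
      _ = _ := by rw [Finset.sum_const, Finset.card_univ, nsmul_eq_mul]
  have h2 := sum_tri_sq_ge χ
  have h3 := le_u1 (χ x)
  have h4 := sum_tri_sq_pos χ
  rw [div_le_iff₀ (by positivity)]
  have h5 : (Fintype.card Γ : ℝ) * ‖χ x‖ ^ 2 ≤ 2 ^ 18 * (∑ z, tri χ z ^ 2) * ‖χ x‖ ^ 2 := by
    refine mul_le_mul_of_nonneg_right ?_ (sq_nonneg _)
    linarith [(div_le_iff₀ (by norm_num : (0:ℝ) < 2 ^ 18)).1 h2]
  nlinarith

theorem bmp_eq_zero (χ : Γ →+ UnitAddCircle) (x : Γ) (hx : 1 / 16 ≤ ‖χ x‖) : bmp χ x = 0 := by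
  rw [bmp, Finset.sum_eq_zero, zero_div]
  intro z _
  by_cases h : ‖χ z‖ < 1 / 32
  · have h1 : 1 / 32 ≤ ‖χ (z + x)‖ := by
      have : ‖χ x‖ ≤ ‖χ (z + x)‖ + ‖χ z‖ := by
        have h2 : χ x = χ (z + x) - χ z := by rw [map_add, add_sub_cancel_left]
        rw [h2]
        exact norm_sub_le _ _
      linarith
    have : tri χ (z + x) = 0 := max_eq_left (by linarith)
    rw [this, mul_zero]
  · have : tri χ z = 0 := max_eq_left (by linarith [not_lt.1 h])
    rw [this, zero_mul]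

/-- `bmp - 1/128` is positive definite -/
theorem pdc_bmp (χ : Γ →+ UnitAddCircle) : PDc (fun x => bmp χ x - 1 / 128) := by
  have hc : (0 : ℝ) < Fintype.card Γ := by exact_mod_cast Fintype.card_pos_iff.2 ⟨0⟩
  have h4 := sum_tri_sq_pos χ
  have h1 := (pdc_autocorr (tri χ)).smul (c := (∑ z, tri χ z ^ 2)⁻¹) (inv_nonneg.2 h4.le)
  have h2 : 1 / 128 ≤ (∑ z, tri χ z ^ 2)⁻¹ * ((∑ z, tri χ z) ^ 2 / Fintype.card Γ) := by
    have h5 : ∑ z, tri χ z ^ 2 ≤ 1 / 32 * ∑ z, tri χ z := by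
      rw [Finset.mul_sum]
      refine Finset.sum_le_sum fun z _ => ?_
      rw [sq]
      exact mul_le_mul_of_nonneg_right (tri_le χ z) (tri_nonneg χ z)
    have h6 := sum_tri_ge χ
    have h7 : 0 ≤ ∑ z, tri χ z := Finset.sum_nonneg fun z _ => tri_nonneg χ z
    rw [inv_mul_eq_div, div_div, le_div_iff₀ (by positivity)]
    calc 1 / 128 * ((Fintype.card Γ : ℝ) * ∑ z, tri χ z ^ 2)
        ≤ 1 / 128 * ((Fintype.card Γ : ℝ) * (1 / 32 * ∑ z, tri χ z)) := by gcongr
      _ = (Fintype.card Γ : ℝ) / 4096 * ∑ z, tri χ z := by ring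
      _ ≤ (∑ z, tri χ z) * ∑ z, tri χ z := mul_le_mul_of_nonneg_right h6 h7
      _ = _ := by ring
  have h3 := h1.add (PDc.const (Γ := Γ) (sub_nonneg.2 h2))
  convert h3 using 2 with x
  rw [bmp, div_eq_inv_mul]
  ring

theorem pdc_bmp' (χ : Γ →+ UnitAddCircle) : PDc (bmp χ) := by
  have h3 := (pdc_bmp χ).add (PDc.const (Γ := Γ) (c := 1 / 128) (by norm_num))
  simpa using h3

/-- lower bound for the expectation of the bump -/
theorem expect_bmp {h : Γ → ℝ} (hh : PDc h) (χ : Γ →+ UnitAddCircle) :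
    Real.exp (-(2 ^ 18 * ((∑ x, u1 (χ x) * Real.exp (h x)) / ∑ x, Real.exp (h x)))) ≤
      (∑ x, bmp χ x * Real.exp (h x)) / ∑ x, Real.exp (h x) := by
  have h4 : 0 < ∑ x : Γ, Real.exp (h x) :=
    Finset.sum_pos (fun x _ => Real.exp_pos _) ⟨0, Finset.mem_univ 0⟩
  have h1 : 1 / 128 ≤ (∑ x, bmp χ x * Real.exp (h x)) / ∑ x, Real.exp (h x) := by
    have h2 := ginibre_nonneg (pdc_bmp χ) hh
    rw [le_div_iff₀ h4, Finset.mul_sum]
    have h3 : ∑ x, (bmp χ x - 1 / 128) * Real.exp (h x) =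
        ∑ x, bmp χ x * Real.exp (h x) - ∑ x, 1 / 128 * Real.exp (h x) := by
      rw [← Finset.sum_sub_distrib]
      exact Finset.sum_congr rfl fun x _ => by ring
    linarith
  have h2 : 1 - 2 ^ 14 * ((∑ x, u1 (χ x) * Real.exp (h x)) / ∑ x, Real.exp (h x)) ≤
      (∑ x, bmp χ x * Real.exp (h x)) / ∑ x, Real.exp (h x) := by
    rw [le_div_iff₀ h4, sub_mul, one_mul, mul_assoc, div_mul_cancel₀ _ h4.ne', Finset.mul_sum,
      ← Finset.sum_sub_distrib]
    refine Finset.sum_le_sum fun x _ => ?_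
    have h3 := one_sub_bmp_le χ x
    have h5 := Real.exp_pos (h x)
    nlinarith
  have h0 : 0 ≤ (∑ x, u1 (χ x) * Real.exp (h x)) / ∑ x, Real.exp (h x) :=
    div_nonneg (Finset.sum_nonneg fun x _ => mul_nonneg (u1_nonneg _) (Real.exp_pos _).le) h4.le
  generalize (∑ x, u1 (χ x) * Real.exp (h x)) / ∑ x, Real.exp (h x) = t at *
  generalize (∑ x, bmp χ x * Real.exp (h x)) / ∑ x, Real.exp (h x) = s at *
  by_cases ht : 2 ^ 15 * t ≤ 1
  · refine le_trans ?_ h2
    have h5 : Real.exp (-(2 ^ 18 * t)) ≤ Real.exp (-(2 ^ 15 * t)) := by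
      apply Real.exp_le_exp.2
      linarith
    refine h5.trans ?_
    have h6 : Real.exp (-(2 ^ 15 * t)) ≤ (1 + 2 ^ 15 * t)⁻¹ := by
      rw [Real.exp_neg]
      refine inv_anti₀ (by positivity) ?_
      linarith [Real.add_one_le_exp (2 ^ 15 * t)]
    refine h6.trans ?_
    rw [inv_le_iff_one_le_mul₀ (by positivity)]
    nlinarith [mul_nonneg h0 (sub_nonneg.2 ht)]
  · refine le_trans ?_ h1
    have h5 : Real.exp (-(2 ^ 18 * t)) ≤ Real.exp (-8) := by
      apply Real.exp_le_exp.2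
      linarith
    refine h5.trans ?_
    have h6 : Real.exp (-8) = (Real.exp 1)⁻¹ ^ 8 := by
      rw [← Real.exp_neg, ← Real.exp_nat_mul]
      norm_num
    rw [h6]
    have h7 : (Real.exp 1)⁻¹ ≤ 1 / 2 := by
      rw [one_div]
      refine inv_anti₀ (by norm_num) ?_
      linarith [Real.add_one_le_exp 1]
    calc (Real.exp 1)⁻¹ ^ 8 ≤ (1 / 2 : ℝ) ^ 8 :=
          pow_le_pow_left₀ (inv_nonneg.2 (Real.exp_pos _).le) h7 8
      _ ≤ 1 / 128 := by norm_num

end Char

end H24.ID
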