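import Pool.Agent.H24.ID.LemmaA
set_option autoImplicit false

/-! The small Bohr set lives on a lattice. -/

namespace H24.ID

open Finset
open scoped Pointwise

/-- the convex body in the ambient space -/
def body (m : ℕ) (R₀ : ℝ) : Set (Fin m → ℝ) := {r | (∀ i, |r i| ≤ 1 / 8) ∧ ∑ i, r i ^ 2 ≤ R₀ / 2}

theorem body_convex (m : ℕ) (R₀ : ℝ) : Convex ℝ (body m R₀) := by
  intro x hx y hy a b ha hb hab
  refine ⟨fun i => ?_, ?_⟩
  · simp only [Pi.add_apply, Pi.smul_apply, smul_eq_mul]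
    calc |a * x i + b * y i| ≤ |a * x i| + |b * y i| := abs_add_le _ _
      _ = a * |x i| + b * |y i| := by rw [abs_mul, abs_mul, abs_of_nonneg ha, abs_of_nonneg hb]
      _ ≤ a * (1 / 8) + b * (1 / 8) := by
        gcongr
        · exact hx.1 i
        · exact hy.1 i
      _ = 1 / 8 := by rw [← add_mul, hab, one_mul]
  · simp only [Pi.add_apply, Pi.smul_apply, smul_eq_mul]
    have h1 : ∀ i, (a * x i + b * y i) ^ 2 ≤ a * x i ^ 2 + b * y i ^ 2 := by
      intro i
      have hb' : b = 1 - a := by linarith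
      subst hb'
      nlinarith [mul_nonneg ha hb, sq_nonneg (x i - y i), mul_nonneg (mul_nonneg ha hb)
        (sq_nonneg (x i - y i))]
    calc ∑ i, (a * x i + b * y i) ^ 2 ≤ ∑ i, (a * x i ^ 2 + b * y i ^ 2) :=
          Finset.sum_le_sum fun i _ => h1 i
      _ = a * ∑ i, x i ^ 2 + b * ∑ i, y i ^ 2 := by
          rw [Finset.sum_add_distrib, Finset.mul_sum, Finset.mul_sum]
      _ ≤ a * (R₀ / 2) + b * (R₀ / 2) := by
          gcongr
          · exact hx.2
          · exact hy.2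
      _ = R₀ / 2 := by rw [← add_mul, hab, one_mul]

theorem body_compact (m : ℕ) (R₀ : ℝ) : IsCompact (body m R₀) := by
  refine Metric.isCompact_of_isClosed_isBounded ?_ ?_
  · have h1 : body m R₀ = (⋂ i, {r : Fin m → ℝ | |r i| ≤ 1 / 8}) ∩ {r | ∑ i, r i ^ 2 ≤ R₀ / 2} := by
      ext r
      simp [body]
    rw [h1]
    refine IsClosed.inter (isClosed_iInter fun i => ?_) ?_
    · exact isClosed_le (by fun_prop) continuous_const
    · exact isClosed_le (by fun_prop) continuous_const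
  · rw [Metric.isBounded_iff_subset_closedBall 0]
    refine ⟨1 / 8, fun r hr => ?_⟩
    rw [mem_closedBall_zero_iff, pi_norm_le_iff_of_nonneg (by norm_num)]
    exact fun i => hr.1 i

theorem body_nhds (m : ℕ) {R₀ : ℝ} (hR₀ : 0 < R₀) : (0 : Fin m → ℝ) ∈ interior (body m R₀) := by
  rw [mem_interior_iff_mem_nhds]
  have h1 : body m R₀ = (⋂ i, {r : Fin m → ℝ | |r i| ≤ 1 / 8}) ∩ {r | ∑ i, r i ^ 2 ≤ R₀ / 2} := by
    ext r
    simp [body]
  rw [h1]
  refine Filter.inter_mem ?_ ?_
  · rw [Filter.iInter_mem]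
    intro i
    have hc : Continuous fun r : Fin m → ℝ => |r i| := by fun_prop
    have := hc.continuousAt (x := (0 : Fin m → ℝ)).eventually_lt_const (u := 1 / 8) (by simp)
    exact Filter.mem_of_superset this fun r (hr : |r i| < 1 / 8) => hr.le
  · have hc : Continuous fun r : Fin m → ℝ => ∑ i, r i ^ 2 := by fun_prop
    have := hc.continuousAt (x := (0 : Fin m → ℝ)).eventually_lt_const (u := R₀ / 2) (by
      simp
      exact hR₀)
    exact Filter.mem_of_superset this fun r (hr : ∑ i, r i ^ 2 < R₀ / 2) => hr.le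

theorem body_symm (m : ℕ) (R₀ : ℝ) : ∀ x ∈ body m R₀, -x ∈ body m R₀ := by
  intro x hx
  refine ⟨fun i => ?_, ?_⟩
  · rw [Pi.neg_apply, abs_neg]
    exact hx.1 i
  · simp only [Pi.neg_apply, neg_sq]
    exact hx.2

variable {Γ : Type*} [AddCommGroup Γ] [Fintype Γ]

/-- the lattice of lifts -/
def lat {m : ℕ} (η : Fin m → (Γ →+ UnitAddCircle)) : Submodule ℤ (Fin m → ℝ) where
  carrier := {r | ∃ x : Γ, ∀ i, (r i : UnitAddCircle) = η i x}
  zero_mem' := ⟨0, fun i => by simp⟩
  add_mem' := by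
    rintro a b ⟨x, hx⟩ ⟨y, hy⟩
    refine ⟨x + y, fun i => ?_⟩
    rw [map_add, ← hx, ← hy, Pi.add_apply, AddCircle.coe_add]
  smul_mem' := by
    rintro n a ⟨x, hx⟩
    refine ⟨n • x, fun i => ?_⟩
    rw [map_zsmul, ← hx, Pi.smul_apply, AddCircle.coe_zsmul]

omit [Fintype Γ] in
theorem mem_lat {m : ℕ} (η : Fin m → (Γ →+ UnitAddCircle)) (r : Fin m → ℝ) :
    r ∈ lat η ↔ ∃ x : Γ, ∀ i, (r i : UnitAddCircle) = η i x := Iff.rfl

theorem coe_eq_zero_small {s : ℝ} (h : (s : UnitAddCircle) = 0) (hs : |s| < 1) : s = 0 := by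
  rw [AddCircle.coe_eq_zero_iff] at h
  obtain ⟨n, hn⟩ := h
  have h1 : (n : ℝ) = s := by simpa using hn
  rw [← h1] at hs ⊢
  have h2 : |n| < 1 := by exact_mod_cast hs
  rw [Int.abs_lt_one_iff.mp h2, Int.cast_zero]

instance lat_discrete {m : ℕ} (η : Fin m → (Γ →+ UnitAddCircle)) : DiscreteTopology (lat η) := by
  have hc : (0 : ℝ) < Fintype.card Γ := by exact_mod_cast Fintype.card_pos_iff.2 ⟨0⟩
  apply discreteTopology_of_isOpen_singleton_zero
  rw [Metric.isOpen_singleton_iff]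
  refine ⟨1 / Fintype.card Γ, by positivity, fun y hy => ?_⟩
  rw [dist_zero_right] at hy
  obtain ⟨x, hx⟩ := (mem_lat η _).1 y.2
  ext1
  funext i
  have h1 : ‖(y : Fin m → ℝ) i‖ < 1 / Fintype.card Γ :=
    lt_of_le_of_lt (norm_le_pi_norm _ i) hy
  have h2 : (((Fintype.card Γ : ℝ) * (y : Fin m → ℝ) i : ℝ) : UnitAddCircle) = 0 := by
    have h3 : (((Fintype.card Γ : ℝ) * (y : Fin m → ℝ) i : ℝ) : UnitAddCircle) =
        Fintype.card Γ • ((y : Fin m → ℝ) i : UnitAddCircle) := by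
      rw [← AddCircle.coe_nsmul, nsmul_eq_mul]
    rw [h3, hx, ← map_nsmul, card_nsmul_eq_zero, map_zero]
  have h3 := coe_eq_zero_small h2 (by
    rw [abs_mul, abs_of_pos hc]
    rw [Real.norm_eq_abs, lt_div_iff₀ hc] at h1
    linarith)
  rcases mul_eq_zero.1 h3 with h | h
  · exact absurd h hc.ne'
  · exact h

instance lat_isZLattice {m : ℕ} (η : Fin m → (Γ →+ UnitAddCircle)) : IsZLattice ℝ (lat η) := ⟨by
  rw [eq_top_iff, ← (Pi.basisFun ℝ (Fin m)).span_eq]
  refine Submodule.span_mono ?_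
  rintro _ ⟨i, rfl⟩
  refine ⟨0, fun j => ?_⟩
  rw [Pi.basisFun_apply, map_zero]
  by_cases h : j = i
  · subst h
    rw [Pi.single_eq_same, AddCircle.coe_eq_zero_iff]
    exact ⟨1, by simp⟩
  · rw [Pi.single_eq_of_ne h, AddCircle.coe_zero]⟩

/-- **The lift.** -/
theorem lift {m : ℕ} (η : Fin m → (Γ →+ UnitAddCircle)) {R₀ : ℝ} (hR₀ : 0 < R₀) :
    ∃ (B : Set (Fin m → ℝ)) (ψ : (Fin m → ℤ) →+ Γ) (H : AddSubgroup Γ),
      Convex ℝ B ∧ IsCompact B ∧ (interior B).Nonempty ∧ (∀ x ∈ B, -x ∈ B) ∧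
      (∀ x y : Fin m → ℤ, (fun i => (x i : ℝ)) ∈ (2 : ℝ) • B →
        (fun i => (y i : ℝ)) ∈ (2 : ℝ) • B → ψ x - ψ y ∈ H → x = y) ∧
      (∀ x y : Γ, ((∀ i, ‖η i x‖ < 1 / 16) ∧ en η x ≤ R₀) →
        ((∀ i, ‖η i y‖ < 1 / 16) ∧ en η y ≤ R₀) →
        ∃ c : Fin m → ℤ, (fun i => (c i : ℝ)) ∈ B ∧ ∃ h ∈ H, x - y = ψ c + h) ∧
      ({c : Fin m → ℤ | (fun i => (c i : ℝ)) ∈ B}.ncard : ℝ) * Nat.card H ≤
        ({x : Γ | en η x ≤ 10 * R₀}.ncard : ℝ) := by
  classical
  let b := IsZLattice.basis (lat η)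
  let BR : Module.Basis (Fin m) ℝ (Fin m → ℝ) := b.ofZLatticeBasis ℝ (lat η)
  have hBR : ∀ i, BR i = (b i : Fin m → ℝ) := fun i =>
    Module.Basis.ofZLatticeBasis_apply ℝ (lat η) b i
  let T : (Fin m → ℝ) ≃ₗ[ℝ] (Fin m → ℝ) := BR.equivFun.symm
  have hT : ∀ a, T a = ∑ i, a i • (b i : Fin m → ℝ) := fun a => by
    simp only [T, Module.Basis.equivFun_symm_apply, hBR]
  have hlift : ∀ j, ∃ x : Γ, ∀ i, ((b j : Fin m → ℝ) i : UnitAddCircle) = η i x := fun j =>
    (mem_lat η _).1 (b j).2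
  choose x hx using hlift
  let ψ : (Fin m → ℤ) →+ Γ :=
    AddMonoidHom.mk' (fun c => ∑ j, c j • x j) (fun c d => by
      simp [add_smul, Finset.sum_add_distrib])
  have hψ : ∀ c, ψ c = ∑ i, c i • x i := fun c => rfl
  let H : AddSubgroup Γ := ⨅ i, (η i).ker
  have hH : ∀ y, y ∈ H ↔ ∀ i, η i y = 0 := by
    intro y
    simp only [H, AddSubgroup.mem_iInf, AddMonoidHom.mem_ker]
  have hkey : ∀ (c : Fin m → ℤ) (i : Fin m), η i (ψ c) =
      ((T (fun i => (c i : ℝ)) i : ℝ) : UnitAddCircle) := by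
    intro c i
    rw [hψ, map_sum, hT, Finset.sum_apply]
    have h2 : ∀ t : Fin m → ℝ, ((∑ j, t j : ℝ) : UnitAddCircle) =
        ∑ j, ((t j : ℝ) : UnitAddCircle) :=
      fun t => map_sum (QuotientAddGroup.mk' (AddSubgroup.zmultiples (1 : ℝ))) t Finset.univ
    rw [h2]
    refine Finset.sum_congr rfl fun j _ => ?_
    rw [map_zsmul, ← hx, Pi.smul_apply, smul_eq_mul, ← AddCircle.coe_zsmul, zsmul_eq_mul]
  have hTc : Continuous T := LinearMap.continuous_of_finiteDimensional T.toLinearMap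
  have hTs : Continuous T.symm := LinearMap.continuous_of_finiteDimensional T.symm.toLinearMap
  refine ⟨T ⁻¹' body m R₀, ψ, H, ?_, ?_, ?_, ?_, ?_, ?_, ?_⟩
  · exact (body_convex m R₀).linear_preimage T.toLinearMap
  · have : T ⁻¹' body m R₀ = T.symm '' body m R₀ := by
      ext v
      simp only [Set.mem_preimage, Set.mem_image]
      constructor
      · intro h
        exact ⟨T v, h, T.symm_apply_apply v⟩
      · rintro ⟨w, hw, rfl⟩
        rwa [T.apply_symm_apply]
    rw [this]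
    exact (body_compact m R₀).image hTs
  · refine ⟨0, ?_⟩
    have h1 : T ⁻¹' interior (body m R₀) ⊆ interior (T ⁻¹' body m R₀) :=
      preimage_interior_subset_interior_preimage hTc
    apply h1
    rw [Set.mem_preimage, map_zero]
    exact body_nhds m hR₀
  · intro v hv
    rw [Set.mem_preimage, map_neg]
    exact body_symm m R₀ _ hv
  · intro c d hc hd hcd
    have h2B : ∀ c : Fin m → ℤ, (fun i => (c i : ℝ)) ∈ (2 : ℝ) • (T ⁻¹' body m R₀) →
        ∀ i, |T (fun i => (c i : ℝ)) i| ≤ 1 / 4 := by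
      intro c hc i
      rw [Set.mem_smul_set_iff_inv_smul_mem₀ (by norm_num : (2 : ℝ) ≠ 0), Set.mem_preimage,
        map_smul] at hc
      have h1 := hc.1 i
      rw [Pi.smul_apply, smul_eq_mul, abs_mul, abs_of_pos (by norm_num : (0:ℝ) < 2⁻¹)] at h1
      linarith
    have h1 : ∀ i, T (fun i => (c i : ℝ)) i = T (fun i => (d i : ℝ)) i := by
      intro i
      have h3 := (hH _).1 hcd i
      rw [map_sub, hkey, hkey, ← AddCircle.coe_sub] at h3
      have h4 := coe_eq_zero_small h3 (by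
        have e1 := h2B c hc i
        have e2 := h2B d hd i
        calc |T (fun i => (c i : ℝ)) i - T (fun i => (d i : ℝ)) i|
            ≤ |T (fun i => (c i : ℝ)) i| + |T (fun i => (d i : ℝ)) i| := abs_sub _ _
          _ < 1 := by linarith)
      linarith
    have h5 : (fun i => (c i : ℝ)) = fun i => (d i : ℝ) := T.injective (funext h1)
    funext i
    exact_mod_cast congrFun h5 i
  · rintro x y ⟨hx1, hx2⟩ ⟨hy1, hy2⟩
    choose r hr1 hr2 hr3 using fun i => exists_rep (η i x)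
    choose s hs1 hs2 hs3 using fun i => exists_rep (η i y)
    have hmem : (fun i => r i - s i) ∈ lat η := by
      rw [mem_lat]
      refine ⟨x - y, fun i => ?_⟩
      rw [AddCircle.coe_sub, hr2, hs2, map_sub]
    let z : lat η := ⟨fun i => r i - s i, hmem⟩
    have hz : T (fun i => ((b.repr z i : ℤ) : ℝ)) = fun i => r i - s i := by
      rw [hT]
      have h1 : ∑ i, b.repr z i • b i = z := b.sum_repr z
      have h2 : ((∑ i, b.repr z i • b i : lat η) : Fin m → ℝ) = (z : Fin m → ℝ) := by rw [h1]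
      rw [Submodule.coe_sum] at h2
      change _ = (z : Fin m → ℝ)
      rw [← h2]
      refine Finset.sum_congr rfl fun i _ => ?_
      rw [Submodule.coe_smul, Int.cast_smul_eq_zsmul]
    refine ⟨fun i => b.repr z i, ?_, x - y - ψ (fun i => b.repr z i), ?_, by abel⟩
    · rw [Set.mem_preimage, hz]
      refine ⟨fun i => ?_, ?_⟩
      · have e1 := hx1 i
        have e2 := hy1 i
        rw [hr3] at e1
        rw [hs3] at e2
        calc |r i - s i| ≤ |r i| + |s i| := abs_sub _ _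
          _ ≤ 1 / 8 := by linarith
      · have e1 : ∑ i, r i ^ 2 ≤ R₀ / 8 := by
          have : 8 * ∑ i, r i ^ 2 ≤ en η x := by
            rw [en, Finset.mul_sum]
            refine Finset.sum_le_sum fun i _ => ?_
            have := le_u1 (η i x)
            rwa [hr3, sq_abs] at this
          linarith
        have e2 : ∑ i, s i ^ 2 ≤ R₀ / 8 := by
          have : 8 * ∑ i, s i ^ 2 ≤ en η y := by
            rw [en, Finset.mul_sum]
            refine Finset.sum_le_sum fun i _ => ?_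
            have := le_u1 (η i y)
            rwa [hs3, sq_abs] at this
          linarith
        calc ∑ i, (r i - s i) ^ 2 ≤ ∑ i, (2 * r i ^ 2 + 2 * s i ^ 2) := by
              refine Finset.sum_le_sum fun i _ => ?_
              nlinarith [sq_nonneg (r i + s i)]
          _ = 2 * ∑ i, r i ^ 2 + 2 * ∑ i, s i ^ 2 := by
              rw [Finset.sum_add_distrib, Finset.mul_sum, Finset.mul_sum]
          _ ≤ R₀ / 2 := by linarith
    · rw [hH]
      intro i
      have := congrFun hz i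
      rw [map_sub, hkey, this, map_sub, AddCircle.coe_sub, hr2, hs2, sub_self]
  · -- volume
    have hfin : {x : Γ | en η x ≤ 10 * R₀}.Finite := Set.toFinite _
    have hinj : Set.InjOn (fun p : (Fin m → ℤ) × Γ => ψ p.1 + p.2)
        ({c : Fin m → ℤ | (fun i => (c i : ℝ)) ∈ T ⁻¹' body m R₀} ×ˢ (H : Set Γ)) := by
      rintro ⟨c, h⟩ ⟨hc, hh⟩ ⟨d, k⟩ ⟨hd, hk⟩ he
      simp only [Set.mem_ofPred_eq, Set.mem_preimage] at hc hd he
      have h1 : ψ c - ψ d ∈ H := by
        have : ψ c - ψ d = k - h := by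
          rw [sub_eq_sub_iff_add_eq_add, he]
          abel
        rw [this]
        exact H.sub_mem hk hh
      have h2 : ∀ i, T (fun i => (c i : ℝ)) i = T (fun i => (d i : ℝ)) i := by
        intro i
        have h3 := (hH _).1 h1 i
        rw [map_sub, hkey, hkey, ← AddCircle.coe_sub] at h3
        have h4 := coe_eq_zero_small h3 (by
          have e1 := hc.1 i
          have e2 := hd.1 i
          calc |T (fun i => (c i : ℝ)) i - T (fun i => (d i : ℝ)) i|
              ≤ |T (fun i => (c i : ℝ)) i| + |T (fun i => (d i : ℝ)) i| := abs_sub _ _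
            _ < 1 := by linarith)
        linarith
      have h5 : (fun i => (c i : ℝ)) = fun i => (d i : ℝ) := T.injective (funext h2)
      have h6 : c = d := by
        funext i
        exact_mod_cast congrFun h5 i
      subst h6
      have h7 : h = k := add_left_cancel he
      rw [h7]
    have hmaps : Set.MapsTo (fun p : (Fin m → ℤ) × Γ => ψ p.1 + p.2)
        ({c : Fin m → ℤ | (fun i => (c i : ℝ)) ∈ T ⁻¹' body m R₀} ×ˢ (H : Set Γ))
        {x : Γ | en η x ≤ 10 * R₀} := by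
      rintro ⟨c, h⟩ ⟨hc, hh⟩
      simp only [Set.mem_ofPred_eq, Set.mem_preimage] at hc ⊢
      have h1 : en η (ψ c + h) ≤ 20 * ∑ i, T (fun i => (c i : ℝ)) i ^ 2 := by
        rw [en, Finset.mul_sum]
        refine Finset.sum_le_sum fun i _ => ?_
        have h2 : η i h = 0 := (hH _).1 hh i
        rw [map_add, h2, add_zero, hkey]
        refine (u1_le _).trans ?_
        have h3 : ‖((T (fun i => (c i : ℝ)) i : ℝ) : UnitAddCircle)‖ ≤
            |T (fun i => (c i : ℝ)) i| := by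
          rw [UnitAddCircle.norm_eq]
          have h5 := round_le (T (fun i => (c i : ℝ)) i) 0
          rwa [Int.cast_zero, sub_zero] at h5
        have h4 := pow_le_pow_left₀ (norm_nonneg _) h3 2
        rw [sq_abs] at h4
        linarith
      have := hc.2
      linarith
    have h1 := Set.ncard_le_ncard_of_injOn _ hmaps hinj hfin
    rw [Set.ncard_prod] at h1
    have h2 : Nat.card H = (H : Set Γ).ncard := Nat.card_coe_set_eq _
    rw [h2]
    exact_mod_cast h1

end H24.ID
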