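import Pool.Agent.H24.ID.Sampling
import Pool.Agent.H24.ID.Lift
import Pool.Agent.H24.Lib.seeded_b3bd081e.H375R3.Dim.Main
set_option autoImplicit false

/-! The covering theorem for infinitely divisible weights. -/

namespace H24.ID

open Finset
open scoped Pointwise

variable {Γ : Type*} [AddCommGroup Γ] [Fintype Γ]

theorem lemmaA' : ∃ N : ℕ, ∀ (Γ : Type*) [AddCommGroup Γ] [Fintype Γ] (m : ℕ)
    (χ : Fin m → (Γ →+ UnitAddCircle)) (κ R₀ : ℝ),
    ∑ x, Real.exp (-en χ x / 2) ≤ κ * ∑ x, Real.exp (-en χ x) →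
    2 * κ ^ (N + 1) ≤ Real.exp (R₀ / 2) →
    (∑ x, Real.exp (-en χ x)) / (2 * κ ^ N) ≤
      ({x : Γ | (∀ i, ‖χ i x‖ < 1 / 16) ∧ en χ x ≤ R₀}.ncard : ℝ) :=
  ⟨2 ^ 19, fun _ _ _ _ χ κ R₀ h1 h2 => lemmaA χ κ R₀ h1 h2⟩

theorem level_card {m : ℕ} (χ : Fin m → (Γ →+ UnitAddCircle)) (r : ℝ) :
    ({x : Γ | en χ x ≤ r}.ncard : ℝ) ≤ Real.exp (r / 2) * ∑ x, Real.exp (-en χ x / 2) := by
  classical
  have h0 : ({x : Γ | en χ x ≤ r}.ncard : ℝ) =
      ∑ x : Γ, if en χ x ≤ r then (1 : ℝ) else 0 := by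
    rw [Finset.sum_boole]
    congr 1
    rw [Set.ncard_eq_toFinset_card']
    congr 1
    ext x
    simp
  rw [h0, Finset.mul_sum]
  refine Finset.sum_le_sum fun x _ => ?_
  split_ifs with h
  · rw [← Real.exp_add]
    refine Real.one_le_exp ?_
    linarith
  · positivity

/-- core covering theorem, with energy weights -/
theorem core : ∃ E : ℕ, ∀ (Γ : Type*) [AddCommGroup Γ] [Fintype Γ] [DecidableEq Γ]
    (ι : Type*) [Fintype ι] (χ : ι → (Γ →+ UnitAddCircle)) (w : ι → ℝ), (∀ i, 0 ≤ w i) →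
    ∀ (K : ℝ), 1 ≤ K → ∀ (A : Finset Γ), A.Nonempty → ((A + A).card : ℝ) ≤ K * A.card →
    ∀ a₀ : Γ, (A.card : ℝ) ≤ K * (A.filter fun a =>
      ∑ i, w i * u1 (χ i (a - a₀)) ≤ Real.log (2 * K)).card →
    ∑ x, Real.exp (-∑ i, w i * u1 (χ i x)) ≤ K * A.card →
    ∃ (m : ℕ) (B' : Set (Fin m → ℝ)) (φ : (Fin m → ℤ) →+ Γ) (H' : AddSubgroup Γ) (T : Finset Γ),
      (m : ℝ) ≤ E * Real.log (2 * K) ∧
      Convex ℝ B' ∧ IsCompact B' ∧ (interior B').Nonempty ∧ (∀ x ∈ B', -x ∈ B') ∧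
      Finite H' ∧
      {x : Fin m → ℤ | (fun i => (x i : ℝ)) ∈ B'}.ncard * Nat.card H' ≤ A.card ∧
      (T.card : ℝ) ≤ (2 * K) ^ E ∧
      ∀ a ∈ A, ∃ t ∈ T, ∃ x : Fin m → ℤ, (fun i => (x i : ℝ)) ∈ B' ∧
        ∃ h ∈ H', a = t + φ x + h := by
  obtain ⟨N, hN⟩ := lemmaA'
  obtain ⟨P, hP⟩ : ∃ P : ℕ, P = 42 * (N + 1) + 1 := ⟨_, rfl⟩
  obtain ⟨Q, hQ⟩ : ∃ Q : ℕ, Q = 10 * P + 100 := ⟨_, rfl⟩
  refine ⟨3300 * (Q + 1), ?_⟩
  intro Γ _ _ _ ι _ χ w hw K hK A hA hAA a₀ h1 h2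
  obtain ⟨L, hL⟩ : ∃ L : ℝ, L = 2 * K := ⟨_, rfl⟩
  have hL2 : 2 ≤ L := by rw [hL]; linarith
  have hL1 : 1 ≤ L := by linarith
  have hL0 : 0 < L := by linarith
  have hKL : K ≤ L := by rw [hL]; linarith
  obtain ⟨ℓ, hℓ⟩ : ∃ ℓ : ℝ, ℓ = Real.log (2 * K) := ⟨_, rfl⟩
  have hℓ0 : 0 < ℓ := by
    rw [hℓ]
    exact Real.log_pos (by linarith)
  have hexp : ∀ n : ℕ, Real.exp (n * ℓ) = L ^ n := by
    intro n
    rw [Real.exp_nat_mul, hℓ, Real.exp_log (by linarith), hL]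
  have hAc : (0 : ℝ) < A.card := by exact_mod_cast hA.card_pos
  -- the good part of `A`, translated
  obtain ⟨A₁, hA₁⟩ : ∃ A₁ : Finset Γ, A₁ = (A.filter fun a =>
      ∑ i, w i * u1 (χ i (a - a₀)) ≤ Real.log (2 * K)).image (fun a => a - a₀) := ⟨_, rfl⟩
  have hA₁c : A₁.card = (A.filter fun a =>
      ∑ i, w i * u1 (χ i (a - a₀)) ≤ Real.log (2 * K)).card := by
    rw [hA₁]
    exact Finset.card_image_of_injective _ fun a b h => by simpa using h
  rw [← hA₁c] at h1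
  have hA₁ne : A₁.Nonempty := by
    rw [← Finset.card_pos]
    have : (0 : ℝ) < A₁.card := by
      by_contra hcon
      have : K * (A₁.card : ℝ) ≤ 0 := mul_nonpos_of_nonneg_of_nonpos (by linarith)
        (not_lt.1 hcon)
      linarith
    exact_mod_cast this
  obtain ⟨m, η, hη1, hη2⟩ := exists_family χ w hw A₁ hA₁ne ℓ (K * A.card) (by positivity) hℓ0
    (by
      intro a ha
      rw [hA₁, Finset.mem_image] at ha
      obtain ⟨b, hb, rfl⟩ := ha
      rw [hℓ]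
      exact (Finset.mem_filter.1 hb).2) h2
  obtain ⟨A₂, hA₂⟩ : ∃ A₂ : Finset Γ, A₂ = A₁.filter fun a => en η a ≤ 40 * ℓ := ⟨_, rfl⟩
  rw [← hA₂] at hη2
  have hA₂e : ∀ a ∈ A₂, en η a ≤ 40 * ℓ := by
    intro a ha
    rw [hA₂] at ha
    exact (Finset.mem_filter.1 ha).2
  have hA₂c : (A.card : ℝ) ≤ L * A₂.card := by
    rw [hL]
    calc (A.card : ℝ) ≤ K * A₁.card := h1
      _ ≤ K * (2 * A₂.card) := by gcongr
      _ = 2 * K * A₂.card := by ring
  have hA₂p : (0 : ℝ) < A₂.card := by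
    by_contra hcon
    have : L * (A₂.card : ℝ) ≤ 0 := mul_nonpos_of_nonneg_of_nonpos hL0.le (not_lt.1 hcon)
    linarith
  have hZh : ∑ x, Real.exp (-en η x / 2) ≤ L * A.card := by
    rw [hL]
    linarith
  have hZ1 : (A.card : ℝ) ≤ L ^ 41 * ∑ x, Real.exp (-en η x) := by
    have e1 : (A₂.card : ℝ) * (L ^ 40)⁻¹ ≤ ∑ x, Real.exp (-en η x) := by
      calc (A₂.card : ℝ) * (L ^ 40)⁻¹ = ∑ a ∈ A₂, (L ^ 40)⁻¹ := by
            rw [Finset.sum_const, nsmul_eq_mul]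
        _ ≤ ∑ a ∈ A₂, Real.exp (-en η a) := by
            refine Finset.sum_le_sum fun a ha => ?_
            rw [← hexp 40, ← Real.exp_neg]
            apply Real.exp_le_exp.2
            have := hA₂e a ha
            push_cast
            linarith
        _ ≤ _ := Finset.sum_le_sum_of_subset_of_nonneg (Finset.subset_univ _)
            fun _ _ _ => (Real.exp_pos _).le
    have e2 : (A₂.card : ℝ) ≤ L ^ 40 * ∑ x, Real.exp (-en η x) := by
      rw [← div_eq_mul_inv, div_le_iff₀ (by positivity)] at e1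
      linarith
    calc (A.card : ℝ) ≤ L * A₂.card := hA₂c
      _ ≤ L * (L ^ 40 * ∑ x, Real.exp (-en η x)) := by gcongr
      _ = _ := by ring
  have hκ : ∑ x, Real.exp (-en η x / 2) ≤ L ^ 42 * ∑ x, Real.exp (-en η x) := by
    calc ∑ x, Real.exp (-en η x / 2) ≤ L * A.card := hZh
      _ ≤ L * (L ^ 41 * ∑ x, Real.exp (-en η x)) := by gcongr
      _ = _ := by ring
  -- the small Bohr set
  obtain ⟨R₀, hR₀⟩ : ∃ R₀ : ℝ, R₀ = 2 * (P * ℓ) := ⟨_, rfl⟩
  have hPp : (0 : ℝ) < P := by rw [hP]; positivity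
  have hR₀p : 0 < R₀ := by rw [hR₀]; positivity
  have hD := hN Γ m η (L ^ 42) R₀ hκ (by
    rw [hR₀, mul_div_cancel_left₀ _ (two_ne_zero), hexp, hP, ← pow_mul, pow_succ]
    calc 2 * L ^ (42 * (N + 1)) ≤ L * L ^ (42 * (N + 1)) := by gcongr
      _ = _ := by ring)
  classical
  obtain ⟨D, hDdef⟩ : ∃ D : Finset Γ, D = Finset.univ.filter fun x : Γ =>
      (∀ i, ‖η i x‖ < 1 / 16) ∧ en η x ≤ R₀ := ⟨_, rfl⟩
  have hDm : ∀ x, x ∈ D ↔ ((∀ i, ‖η i x‖ < 1 / 16) ∧ en η x ≤ R₀) := by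
    intro x
    rw [hDdef]
    simp
  have hDc : ({x : Γ | (∀ i, ‖η i x‖ < 1 / 16) ∧ en η x ≤ R₀}.ncard : ℝ) = D.card := by
    congr 1
    rw [← Set.ncard_coe_finset]
    congr 1
    ext x
    rw [Set.mem_ofPred_eq, Finset.mem_coe, hDm]
  rw [hDc] at hD
  have hDbig : (A.card : ℝ) ≤ L ^ P * D.card := by
    have e1 : ∑ x, Real.exp (-en η x) ≤ (2 * (L ^ 42) ^ N) * D.card := by
      rw [div_le_iff₀ (by positivity)] at hD
      linarith
    calc (A.card : ℝ) ≤ L ^ 41 * ∑ x, Real.exp (-en η x) := hZ1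
      _ ≤ L ^ 41 * ((2 * (L ^ 42) ^ N) * D.card) := by gcongr
      _ ≤ L ^ 41 * ((L * (L ^ 42) ^ N) * D.card) := by gcongr
      _ = L ^ (42 * N + 42) * D.card := by
        rw [← pow_mul]
        ring
      _ ≤ L ^ P * D.card := by
        refine mul_le_mul_of_nonneg_right ?_ (Nat.cast_nonneg _)
        exact pow_le_pow_right₀ hL1 (by omega)
  have hDpos : (0 : ℝ) < D.card := by
    by_contra hcon
    have : L ^ P * (D.card : ℝ) ≤ 0 := mul_nonpos_of_nonneg_of_nonpos (by positivity)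
      (not_lt.1 hcon)
    linarith
  have hDne : D.Nonempty := by
    rw [← Finset.card_pos]
    exact_mod_cast hDpos
  obtain ⟨B, ψ, H, hB1, hB2, hB3, hB4, hprop, hlift, hvol⟩ := lift η hR₀p
  -- volume
  have hlev : ∀ k : ℕ, ({x : Γ | en η x ≤ k * (2 * ℓ)}.ncard : ℝ) ≤ L ^ (k + 1) * A.card := by
    intro k
    refine (level_card η _).trans ?_
    have e1 : Real.exp (k * (2 * ℓ) / 2) = L ^ k := by
      rw [← hexp k]
      congr 1
      ring
    rw [e1]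
    calc L ^ k * ∑ x, Real.exp (-en η x / 2) ≤ L ^ k * (L * A.card) := by gcongr
      _ = _ := by ring
  have hvol' : ({c : Fin m → ℤ | (fun i => (c i : ℝ)) ∈ B}.ncard : ℝ) * Nat.card H ≤
      L ^ Q * A.card := by
    refine hvol.trans ?_
    have e1 := hlev (10 * P)
    have e2 : 10 * R₀ = ((10 * P : ℕ) : ℝ) * (2 * ℓ) := by
      rw [hR₀]
      push_cast
      ring
    rw [e2]
    refine e1.trans (mul_le_mul_of_nonneg_right ?_ hAc.le)
    exact pow_le_pow_right₀ hL1 (by omega)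
  -- covering
  have hAD : ((A + D).card : ℝ) ≤ L ^ (3 * P + 90) * D.card := by
    have e1 := Finset.ruzsa_triangle_inequality_add_add_add A A₂ D
    have e2 : ((A + A₂).card : ℝ) ≤ K * A.card := by
      refine le_trans ?_ hAA
      have : A + A₂ ⊆ (A + A).image fun x => x - a₀ := by
        intro x hx
        rw [Finset.mem_add] at hx
        obtain ⟨a, ha, b, hb, rfl⟩ := hx
        rw [hA₂, Finset.mem_filter, hA₁, Finset.mem_image] at hb
        obtain ⟨⟨c, hc, rfl⟩, -⟩ := hb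
        rw [Finset.mem_image]
        exact ⟨a + c, Finset.add_mem_add ha (Finset.mem_filter.1 hc).1, by abel⟩
      exact_mod_cast (Finset.card_le_card this).trans Finset.card_image_le
    have e3 : ((A₂ + D).card : ℝ) ≤ L ^ (2 * P + 41) * A.card := by
      have e4 : ((A₂ + D).card : ℝ) ≤ ({x : Γ | en η x ≤ (2 * P + 40 : ℕ) * (2 * ℓ)}.ncard : ℝ) := by
        rw [← Set.ncard_coe_finset]
        have : ((A₂ + D : Finset Γ) : Set Γ) ⊆ {x : Γ | en η x ≤ (2 * P + 40 : ℕ) * (2 * ℓ)} := by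
          intro x hx
          rw [Finset.mem_coe, Finset.mem_add] at hx
          obtain ⟨a, ha, d, hd, rfl⟩ := hx
          rw [Set.mem_ofPred_eq]
          have e5 := en_add_le η a d
          have e6 := hA₂e a ha
          have e7 := ((hDm d).1 hd).2
          rw [hR₀] at e7
          push_cast
          linarith
        exact_mod_cast Set.ncard_le_ncard this (Set.toFinite _)
      exact e4.trans (hlev _)
    have e4 : ((A + D).card : ℝ) * A₂.card ≤ (K * A.card) * (L ^ (2 * P + 41) * A.card) := by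
      calc ((A + D).card : ℝ) * A₂.card ≤ ((A + A₂).card : ℝ) * (A₂ + D).card := by
            exact_mod_cast e1
        _ ≤ _ := mul_le_mul e2 e3 (Nat.cast_nonneg _) (by positivity)
    have e5 : ((A + D).card : ℝ) * A₂.card ≤ (L ^ (3 * P + 90) * D.card) * A₂.card := by
      refine e4.trans ?_
      calc (K * A.card) * (L ^ (2 * P + 41) * A.card)
          ≤ (L * (L * A₂.card)) * (L ^ (2 * P + 41) * (L ^ P * D.card)) := by gcongr
        _ = (L ^ (3 * P + 43) * D.card) * A₂.card := by ring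
        _ ≤ _ := by
          refine mul_le_mul_of_nonneg_right (mul_le_mul_of_nonneg_right ?_ (Nat.cast_nonneg _))
            (Nat.cast_nonneg _)
          exact pow_le_pow_right₀ hL1 (by omega)
    exact le_of_mul_le_mul_right e5 hA₂p
  obtain ⟨T₀, -, hT₀c, hT₀⟩ := Finset.ruzsa_covering_add hDne hAD
  have hK2 : 1 ≤ L ^ Q := one_le_pow₀ hL1
  obtain ⟨m', B', φ, H', T, hm', hB', hH', hv', hT', hc'⟩ :=
    H375.Main.main K (L ^ Q) A hA hAA m B ⟨hB1, hB2, hB3, hB4⟩ ψ H (Subtype.finite) hprop T₀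
      (hT₀c.trans (pow_le_pow_right₀ hL1 (by omega))) hvol' (by
        intro a ha
        have := hT₀ ha
        rw [Finset.mem_add] at this
        obtain ⟨t, ht, s, hs, rfl⟩ := this
        rw [Finset.mem_sub] at hs
        obtain ⟨x, hx, y, hy, rfl⟩ := hs
        obtain ⟨c, hc, h, hh, he⟩ := hlift x y ((hDm x).1 hx) ((hDm y).1 hy)
        exact ⟨t, ht, c, hc, h, hh, by rw [he, add_assoc]⟩)
  have hLQ : 2 * K * L ^ Q = L ^ (Q + 1) := by
    rw [← hL]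
    ring
  refine ⟨m', B', φ, H', T, ?_, hB'.1, hB'.2.1, hB'.2.2.1, hB'.2.2.2, hH', hv', ?_, hc'⟩
  · refine hm'.trans ?_
    rw [hLQ, Real.log_pow, hL, ← hℓ]
    push_cast
    have e1 : 0 ≤ ((Q : ℝ) + 1) * ℓ := by positivity
    have e2 : 3300 * ((Q : ℝ) + 1) * ℓ = 3300 * (((Q : ℝ) + 1) * ℓ) := by ring
    rw [e2]
    linarith
  · refine hT'.trans ?_
    rw [hLQ, ← pow_mul, ← hL]
    exact pow_le_pow_right₀ hL1 (by
      rw [mul_comm])

end H24.ID
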