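import Mathlib
set_option autoImplicit false

/-! Ginibre's correlation inequality for positive definite functions on a finite abelian group. -/

namespace H24.ID

open Finset

section Dup

variable {G : Type*} [AddCommGroup G] [Fintype G]

theorem dup_basic (Φ : G → ℝ) : 0 ≤ ∑ x, ∑ y, Φ (x + y) * Φ (y - x) := by
  have h1 : ∑ x, ∑ y, Φ (x + y) * Φ (y - x) = ∑ w, Φ w * ∑ x, Φ (w + (x + x)) := by
    have : ∀ x : G, ∑ y, Φ (x + y) * Φ (y - x) = ∑ w, Φ (w + (x + x)) * Φ w := by
      intro x
      rw [← Equiv.sum_comp (Equiv.addRight x)]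
      refine Finset.sum_congr rfl fun w _ => ?_
      simp only [Equiv.coe_addRight, add_sub_cancel_right]
      congr 2
      abel
    rw [Finset.sum_congr rfl fun x _ => this x, Finset.sum_comm]
    refine Finset.sum_congr rfl fun w _ => ?_
    rw [Finset.mul_sum]
    exact Finset.sum_congr rfl fun x _ => mul_comm _ _
  have h2 : (Fintype.card G : ℝ) * ∑ w, Φ w * ∑ x, Φ (w + (x + x)) =
      ∑ w, (∑ x, Φ (w + (x + x))) ^ 2 := by
    have h3 : ∀ z : G, ∑ w, Φ w * ∑ x, Φ (w + (x + x)) =
        ∑ w, Φ (w + (z + z)) * ∑ x, Φ (w + (x + x)) := by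
      intro z
      rw [← Equiv.sum_comp (Equiv.addRight (z + z))]
      refine Finset.sum_congr rfl fun w _ => ?_
      simp only [Equiv.coe_addRight]
      congr 1
      rw [← Equiv.sum_comp (Equiv.addRight (-z))]
      refine Finset.sum_congr rfl fun x _ => ?_
      simp only [Equiv.coe_addRight]
      congr 1
      abel
    calc (Fintype.card G : ℝ) * ∑ w, Φ w * ∑ x, Φ (w + (x + x))
        = ∑ z : G, ∑ w, Φ w * ∑ x, Φ (w + (x + x)) := by
          rw [Finset.sum_const, Finset.card_univ, nsmul_eq_mul]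
      _ = ∑ z : G, ∑ w, Φ (w + (z + z)) * ∑ x, Φ (w + (x + x)) :=
          Finset.sum_congr rfl fun z _ => h3 z
      _ = ∑ w, ∑ z : G, Φ (w + (z + z)) * ∑ x, Φ (w + (x + x)) := Finset.sum_comm
      _ = _ := by
          refine Finset.sum_congr rfl fun w _ => ?_
          rw [← Finset.sum_mul, sq]
  rw [h1]
  have hc : (0 : ℝ) < Fintype.card G := by
    exact_mod_cast Fintype.card_pos_iff.2 ⟨0⟩
  have h4 : 0 ≤ (Fintype.card G : ℝ) * ∑ w, Φ w * ∑ x, Φ (w + (x + x)) := by
    rw [h2]
    exact Finset.sum_nonneg fun w _ => sq_nonneg _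
  exact nonneg_of_mul_nonneg_right h4 hc

/-- the duplicated cone -/
inductive Dup : (G → G → ℝ) → Prop
  | basic (Φ : G → ℝ) : Dup (fun x y => Φ (x + y) * Φ (y - x))
  | add {F F' : G → G → ℝ} : Dup F → Dup F' → Dup (fun x y => F x y + F' x y)

theorem Dup.sum_nonneg {F : G → G → ℝ} (hF : Dup F) : 0 ≤ ∑ x, ∑ y, F x y := by
  induction hF with
  | basic Φ => exact dup_basic Φ
  | add _ _ h1 h2 =>
    simp only [Finset.sum_add_distrib]
    exact add_nonneg h1 h2

omit [Fintype G] in
theorem Dup.mul {F F' : G → G → ℝ} (hF : Dup F) (hF' : Dup F') :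
    Dup (fun x y => F x y * F' x y) := by
  induction hF with
  | basic Φ =>
    induction hF' with
    | basic Φ' =>
      have := Dup.basic (fun x : G => Φ x * Φ' x)
      convert this using 3
      ring
    | add _ _ h1 h2 =>
      simp only [mul_add]
      exact h1.add h2
  | add _ _ h1 h2 =>
    simp only [add_mul]
    exact h1.add h2

omit [Fintype G] in
theorem Dup.const {c : ℝ} (hc : 0 ≤ c) : Dup (fun _ _ : G => c) := by
  have := Dup.basic (fun _ : G => Real.sqrt c)
  simpa [Real.mul_self_sqrt hc] using this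

omit [Fintype G] in
theorem Dup.pow {F : G → G → ℝ} (hF : Dup F) (n : ℕ) : Dup (fun x y => F x y ^ n) := by
  induction n with
  | zero => simpa using Dup.const (G := G) zero_le_one
  | succ n ih =>
    simp only [pow_succ]
    exact ih.mul hF

theorem Dup.sum_exp_nonneg {F H : G → G → ℝ} (hF : Dup F) (hH : Dup H) :
    0 ≤ ∑ x, ∑ y, F x y * Real.exp (H x y) := by
  have h1 : ∀ n : ℕ, 0 ≤ ∑ x, ∑ y, F x y * (1 + H x y / (n : ℝ)) ^ n := by
    intro n
    have h2 : Dup (fun x y => 1 + H x y / (n : ℝ)) := by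
      refine (Dup.const zero_le_one).add ?_
      have := hH.mul (Dup.const (G := G) (c := 1 / (n : ℝ)) (by positivity))
      convert this using 3
      ring
    exact (hF.mul (h2.pow n)).sum_nonneg
  refine ge_of_tendsto' (x := Filter.atTop) ?_ h1
  refine tendsto_finsetSum _ fun x _ => tendsto_finsetSum _ fun y _ => ?_
  exact (Real.tendsto_one_add_div_pow_exp (H x y)).const_mul (F x y)

end Dup

section Cone

variable {Γ : Type*} [AddCommGroup Γ]

/-- nonnegative combinations of real parts of characters -/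
inductive PDc : (Γ → ℝ) → Prop
  | re (c : ℝ) (hc : 0 ≤ c) (ψ : AddChar Γ ℂ) : PDc (fun x => c * (ψ x).re)
  | add {f g : Γ → ℝ} : PDc f → PDc g → PDc (fun x => f x + g x)

theorem PDc.const {c : ℝ} (hc : 0 ≤ c) : PDc (fun _ : Γ => c) := by
  simpa using PDc.re c hc (0 : AddChar Γ ℂ)

theorem PDc.smul {f : Γ → ℝ} (hf : PDc f) {c : ℝ} (hc : 0 ≤ c) : PDc (fun x => c * f x) := by
  induction hf with
  | re d hd ψ => simpa [mul_assoc] using PDc.re (c * d) (mul_nonneg hc hd) ψ
  | add _ _ h1 h2 =>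
    simp only [mul_add]
    exact h1.add h2

theorem PDc.sum {ι : Type*} (s : Finset ι) (f : ι → Γ → ℝ) (h : ∀ i ∈ s, PDc (f i)) :
    PDc (fun x => ∑ i ∈ s, f i x) := by
  classical
  induction s using Finset.induction_on with
  | empty => simpa using PDc.const (Γ := Γ) le_rfl
  | insert a s ha ih =>
    simp only [Finset.sum_insert ha]
    exact (h a (Finset.mem_insert_self _ _)).add
      (ih fun i hi => h i (Finset.mem_insert_of_mem hi))

variable [Finite Γ]

theorem PDc.mul {f g : Γ → ℝ} (hf : PDc f) (hg : PDc g) : PDc (fun x => f x * g x) := by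
  induction hf with
  | re c hc ψ =>
    induction hg with
    | re d hd ψ' =>
      have h1 := (PDc.re (c * d / 2) (by positivity) (ψ * ψ')).add
        (PDc.re (c * d / 2) (by positivity) (ψ * ψ'⁻¹))
      convert h1 using 2 with x
      rw [AddChar.mul_apply, AddChar.mul_apply, AddChar.inv_apply, AddChar.map_neg_eq_conj]
      simp only [Complex.mul_re, Complex.conj_re, Complex.conj_im]
      ring
    | add _ _ h1 h2 =>
      simp only [mul_add]
      exact h1.add h2
  | add _ _ h1 h2 =>
    simp only [add_mul]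
    exact h1.add h2

theorem PDc.prod {ι : Type*} (s : Finset ι) (f : ι → Γ → ℝ) (h : ∀ i ∈ s, PDc (f i)) :
    PDc (fun x => ∏ i ∈ s, f i x) := by
  classical
  induction s using Finset.induction_on with
  | empty => simpa using PDc.const (Γ := Γ) zero_le_one
  | insert a s ha ih =>
    simp only [Finset.prod_insert ha]
    exact (h a (Finset.mem_insert_self _ _)).mul
      (ih fun i hi => h i (Finset.mem_insert_of_mem hi))

end Cone

section Lift

variable (Γ : Type*) [AddCommGroup Γ] [Fintype Γ]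

/-- the covering group `(ℤ/2|Γ|)^Γ` -/
abbrev Cov := Γ → ZMod (2 * Fintype.card Γ)

instance instNeZeroCov : NeZero (2 * Fintype.card Γ) :=
  ⟨by have := Fintype.card_pos_iff.2 (⟨0⟩ : Nonempty Γ); omega⟩

noncomputable instance instFintypeCov : Fintype (Cov Γ) := Fintype.ofFinite _

variable {Γ}

theorem addChar_map_sum {ι G : Type*} [AddCommGroup G] (ψ : AddChar G ℂ) (s : Finset ι)
    (f : ι → G) : ψ (∑ i ∈ s, f i) = ∏ i ∈ s, ψ (f i) := by
  classical
  induction s using Finset.induction_on with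
  | empty => simp
  | insert a s ha ih =>
    rw [Finset.sum_insert ha, Finset.prod_insert ha, AddChar.map_add_eq_mul, ih]

theorem two_card_zsmul (g : Γ) : zmultiplesHom Γ g ((2 * Fintype.card Γ : ℕ) : ℤ) = 0 := by
  rw [zmultiplesHom_apply, natCast_zsmul, mul_comm, mul_smul]
  exact card_nsmul_eq_zero

variable (Γ)

/-- the covering map -/
noncomputable def cov : Cov Γ →+ Γ :=
  ∑ g : Γ, (ZMod.lift (2 * Fintype.card Γ) ⟨zmultiplesHom Γ g, two_card_zsmul g⟩).comp
    (Pi.evalAddMonoidHom (fun _ : Γ => ZMod (2 * Fintype.card Γ)) g)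

variable {Γ}

theorem lift_val (g : Γ) (a : ZMod (2 * Fintype.card Γ)) :
    ZMod.lift (2 * Fintype.card Γ) ⟨zmultiplesHom Γ g, two_card_zsmul g⟩ a = a.val • g := by
  conv_lhs => rw [← ZMod.natCast_zmod_val a]
  rw [← Int.cast_natCast (R := ZMod (2 * Fintype.card Γ)), ZMod.lift_coe]
  exact natCast_zsmul g a.val

theorem cov_apply (c : Cov Γ) : cov Γ c = ∑ g, (c g).val • g := by
  simp only [cov, AddMonoidHom.finsetSum_apply, AddMonoidHom.comp_apply,
    Pi.evalAddMonoidHom_apply]
  exact Finset.sum_congr rfl fun g _ => lift_val g _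

theorem cov_surjective : Function.Surjective (cov Γ) := by
  classical
  intro g
  refine ⟨Pi.single g 1, ?_⟩
  rw [cov_apply, Finset.sum_eq_single g]
  · rw [Pi.single_eq_same, ZMod.val_one'', one_smul]
    have := Fintype.card_pos_iff.2 (⟨0⟩ : Nonempty Γ)
    omega
  · intro b _ hb
    rw [Pi.single_eq_of_ne hb]
    simp
  · intro h
    exact absurd (Finset.mem_univ g) h

theorem exists_sqrt (ψ : AddChar Γ ℂ) :
    ∃ η : AddChar (Cov Γ) ℂ, ∀ c, η c ^ 2 = ψ (cov Γ c) := by
  have h1 : ∀ g : Γ, ∃ z : ℂ, z ^ 2 = ψ g := fun g => IsAlgClosed.exists_pow_nat_eq _ two_pos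
  choose r hr using h1
  have h2 : ∀ g : Γ, r g ^ (2 * Fintype.card Γ) = 1 := by
    intro g
    rw [pow_mul, hr, ← AddChar.map_nsmul_eq_pow, card_nsmul_eq_zero, AddChar.map_zero_eq_one]
  refine ⟨∏ g : Γ, (AddChar.zmodChar (2 * Fintype.card Γ) (h2 g)).compAddMonoidHom
    (Pi.evalAddMonoidHom (fun _ : Γ => ZMod (2 * Fintype.card Γ)) g), fun c => ?_⟩
  rw [AddChar.prod_apply, cov_apply, addChar_map_sum, ← Finset.prod_pow]
  refine Finset.prod_congr rfl fun g _ => ?_
  rw [AddChar.compAddMonoidHom_apply, Pi.evalAddMonoidHom_apply, AddChar.zmodChar_apply,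
    AddChar.map_nsmul_eq_pow, ← hr g, ← pow_mul, ← pow_mul, mul_comm]

theorem sum_cov (f : Γ → ℝ) :
    ∑ u : Cov Γ, f (cov Γ u) = (Nat.card (cov Γ).ker : ℝ) * ∑ x, f x := by
  classical
  have : Fintype (cov Γ).ker := Fintype.ofFinite _
  let σ : Γ → Cov Γ := Function.surjInv cov_surjective
  have hσ : ∀ x, cov Γ (σ x) = x := Function.surjInv_eq cov_surjective
  let e : Γ × (cov Γ).ker ≃ Cov Γ :=
    { toFun := fun p => σ p.1 + p.2
      invFun := fun u => (cov Γ u, ⟨u - σ (cov Γ u), by
        rw [AddMonoidHom.mem_ker, map_sub, hσ, sub_self]⟩)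
      left_inv := by
        rintro ⟨x, k, hk⟩
        rw [AddMonoidHom.mem_ker] at hk
        simp only [map_add, hσ, hk, add_zero, add_sub_cancel_left]
      right_inv := by
        intro u
        simp }
  rw [← Equiv.sum_comp e, Fintype.sum_prod_type, Finset.mul_sum]
  refine Finset.sum_congr rfl fun x _ => ?_
  have : ∀ k : (cov Γ).ker, f (cov Γ (e (x, k))) = f x := by
    rintro ⟨k, hk⟩
    rw [AddMonoidHom.mem_ker] at hk
    change f (cov Γ (σ x + k)) = f x
    rw [map_add, hσ, hk, add_zero]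
  rw [Finset.sum_congr rfl fun k _ => this k, Finset.sum_const, Finset.card_univ, nsmul_eq_mul,
    Nat.card_eq_fintype_card]

theorem sum_cov₂ (F : Γ → Γ → ℝ) :
    ∑ u : Cov Γ, ∑ v : Cov Γ, F (cov Γ u) (cov Γ v) =
      (Nat.card (cov Γ).ker : ℝ) ^ 2 * ∑ x, ∑ y, F x y := by
  have h1 : ∀ u : Cov Γ, ∑ v : Cov Γ, F (cov Γ u) (cov Γ v) =
      (Nat.card (cov Γ).ker : ℝ) * ∑ y, F (cov Γ u) y := fun u => sum_cov _
  rw [Finset.sum_congr rfl fun u _ => h1 u, ← Finset.mul_sum,
    sum_cov (fun x => ∑ y, F x y)]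
  ring

theorem dup_of_pdc {f : Γ → ℝ} (hf : PDc f) :
    Dup (fun u v : Cov Γ => f (cov Γ u) + f (cov Γ v)) ∧
    Dup (fun u v : Cov Γ => f (cov Γ u) - f (cov Γ v)) := by
  induction hf with
  | re c hc ψ =>
    obtain ⟨η, hη⟩ := exists_sqrt ψ
    have hn : ∀ u, Complex.normSq (η u) = 1 := by
      intro u
      rw [Complex.normSq_eq_norm_sq, AddChar.norm_apply, one_pow]
    have key : ∀ u v : Cov Γ, (ψ (cov Γ u)).re + (ψ (cov Γ v)).re =
          2 * ((η (u + v)).re * (η (v - u)).re) ∧
        (ψ (cov Γ u)).re - (ψ (cov Γ v)).re = 2 * ((η (u + v)).im * (η (v - u)).im) := by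
      intro u v
      have hu := hn u
      have hv := hn v
      rw [← hη, ← hη, sub_eq_add_neg, AddChar.map_add_eq_mul, AddChar.map_add_eq_mul,
        AddChar.map_neg_eq_conj]
      rw [Complex.normSq_apply] at hu hv
      simp only [sq, Complex.mul_re, Complex.mul_im, Complex.conj_re, Complex.conj_im]
      constructor
      · linear_combination (-(η v).re * (η v).re + (η v).im * (η v).im) * hu +
          (-(η u).re * (η u).re + (η u).im * (η u).im) * hv
      · linear_combination ((η v).re * (η v).re - (η v).im * (η v).im) * hu +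
          (-(η u).re * (η u).re + (η u).im * (η u).im) * hv
    have hc' : (0 : ℝ) ≤ c * 2 := by positivity
    constructor
    · have h1 := (Dup.const (G := Cov Γ) hc').mul (Dup.basic fun u => (η u).re)
      convert h1 using 3 with u v
      rw [← mul_add, (key u v).1]
      ring
    · have h1 := (Dup.const (G := Cov Γ) hc').mul (Dup.basic fun u => (η u).im)
      convert h1 using 3 with u v
      rw [← mul_sub, (key u v).2]
      ring
  | add _ _ h1 h2 =>
    constructor
    · convert h1.1.add h2.1 using 3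
      ring
    · convert h1.2.add h2.2 using 3
      ring

theorem card_ker_pos : (0 : ℝ) < (Nat.card (cov Γ).ker : ℝ) := by
  exact_mod_cast Nat.card_pos

/-- Ginibre's inequality: covariances are nonnegative. -/
theorem ginibre {f g h : Γ → ℝ} (hf : PDc f) (hg : PDc g) (hh : PDc h) :
    (∑ x, f x * Real.exp (h x)) * (∑ x, g x * Real.exp (h x)) ≤
      (∑ x, f x * g x * Real.exp (h x)) * ∑ x, Real.exp (h x) := by
  have h1 := ((dup_of_pdc hf).2.mul (dup_of_pdc hg).2).sum_exp_nonneg (dup_of_pdc hh).1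
  rw [sum_cov₂ (fun x y => (f x - f y) * (g x - g y) * Real.exp (h x + h y))] at h1
  have h2 := nonneg_of_mul_nonneg_right h1 (pow_pos card_ker_pos 2)
  have h3 : ∑ x, ∑ y, (f x - f y) * (g x - g y) * Real.exp (h x + h y) =
      2 * ((∑ x, f x * g x * Real.exp (h x)) * (∑ x, Real.exp (h x)) -
        (∑ x, f x * Real.exp (h x)) * (∑ x, g x * Real.exp (h x))) := by
    have e1 : ∀ x y, (f x - f y) * (g x - g y) * Real.exp (h x + h y) =
        (f x * g x * Real.exp (h x)) * Real.exp (h y) +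
        Real.exp (h x) * (f y * g y * Real.exp (h y)) -
        (f x * Real.exp (h x)) * (g y * Real.exp (h y)) -
        (g x * Real.exp (h x)) * (f y * Real.exp (h y)) := by
      intro x y
      rw [Real.exp_add]
      ring
    simp only [e1, Finset.sum_sub_distrib, Finset.sum_add_distrib, ← Finset.mul_sum,
      ← Finset.sum_mul]
    ring
  rw [h3] at h2
  linarith

/-- expectations of positive definite functions are nonnegative -/
theorem ginibre_nonneg {f h : Γ → ℝ} (hf : PDc f) (hh : PDc h) :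
    0 ≤ ∑ x, f x * Real.exp (h x) := by
  have h1 := (dup_of_pdc hf).1.sum_exp_nonneg (dup_of_pdc hh).1
  rw [sum_cov₂ (fun x y => (f x + f y) * Real.exp (h x + h y))] at h1
  have h2 := nonneg_of_mul_nonneg_right h1 (pow_pos card_ker_pos 2)
  have h3 : ∑ x, ∑ y, (f x + f y) * Real.exp (h x + h y) =
      2 * ((∑ x, Real.exp (h x)) * (∑ x, f x * Real.exp (h x))) := by
    have e1 : ∀ x y, (f x + f y) * Real.exp (h x + h y) =
        (f x * Real.exp (h x)) * Real.exp (h y) +
        Real.exp (h x) * (f y * Real.exp (h y)) := by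
      intro x y
      rw [Real.exp_add]
      ring
    simp only [e1, Finset.sum_add_distrib, ← Finset.mul_sum, ← Finset.sum_mul]
    ring
  rw [h3] at h2
  have h4 : 0 < ∑ x : Γ, Real.exp (h x) :=
    Finset.sum_pos (fun x _ => Real.exp_pos _) ⟨0, Finset.mem_univ 0⟩
  have h5 : 0 ≤ (∑ x, Real.exp (h x)) * (∑ x, f x * Real.exp (h x)) := by linarith
  exact nonneg_of_mul_nonneg_right h5 h4

/-- the product form -/
theorem ginibre_prod {ι : Type*} (s : Finset ι) (f : ι → Γ → ℝ) {h : Γ → ℝ}
    (hf : ∀ i ∈ s, PDc (f i)) (hh : PDc h) :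
    (∏ i ∈ s, ((∑ x, f i x * Real.exp (h x)) / ∑ x, Real.exp (h x))) * ∑ x, Real.exp (h x) ≤
      ∑ x, (∏ i ∈ s, f i x) * Real.exp (h x) := by
  classical
  have h4 : 0 < ∑ x : Γ, Real.exp (h x) :=
    Finset.sum_pos (fun x _ => Real.exp_pos _) ⟨0, Finset.mem_univ 0⟩
  induction s using Finset.induction_on with
  | empty => simp
  | insert a s ha ih =>
    have ih' := ih fun i hi => hf i (Finset.mem_insert_of_mem hi)
    have ha' := hf a (Finset.mem_insert_self _ _)
    have h5 := ginibre ha' (PDc.prod s f fun i hi => hf i (Finset.mem_insert_of_mem hi)) hh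
    have h6 := ginibre_nonneg ha' hh
    simp only [Finset.prod_insert ha]
    have h7 : (∑ x, f a x * Real.exp (h x)) *
        ((∏ i ∈ s, ((∑ x, f i x * Real.exp (h x)) / ∑ x, Real.exp (h x))) *
          ∑ x, Real.exp (h x)) ≤
        (∑ x, f a x * (∏ i ∈ s, f i x) * Real.exp (h x)) * ∑ x, Real.exp (h x) :=
      (mul_le_mul_of_nonneg_left ih' h6).trans h5
    have h8 : (∑ x, f a x * Real.exp (h x)) / (∑ x, Real.exp (h x)) *
        (∏ i ∈ s, ((∑ x, f i x * Real.exp (h x)) / ∑ x, Real.exp (h x))) *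
          ∑ x, Real.exp (h x) =
        ((∑ x, f a x * Real.exp (h x)) *
        ((∏ i ∈ s, ((∑ x, f i x * Real.exp (h x)) / ∑ x, Real.exp (h x))) *
          ∑ x, Real.exp (h x))) / ∑ x, Real.exp (h x) := by
      field_simp
    rw [h8, div_le_iff₀ h4]
    exact h7

end Lift

end H24.ID
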