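import Pool.Agent.H24.ID.Bump
set_option autoImplicit false

/-! The Gaussian mass of the small Bohr set, from Ginibre's inequality. -/

namespace H24.ID

open Finset

variable {Γ : Type*} [AddCommGroup Γ] {ι : Type*} [Fintype ι]

/-- the energy `∑ (1 - cos 2π χ_i(x))` -/
noncomputable def en (χ : ι → (Γ →+ UnitAddCircle)) (x : Γ) : ℝ := ∑ i, u1 (χ i x)

theorem en_nonneg (χ : ι → (Γ →+ UnitAddCircle)) (x : Γ) : 0 ≤ en χ x :=
  Finset.sum_nonneg fun _ _ => u1_nonneg _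

theorem en_neg (χ : ι → (Γ →+ UnitAddCircle)) (x : Γ) : en χ (-x) = en χ x := by
  simp only [en, map_neg, u1_neg]

theorem en_add_le (χ : ι → (Γ →+ UnitAddCircle)) (x y : Γ) :
    en χ (x + y) ≤ 2 * (en χ x + en χ y) := by
  simp only [en]
  rw [← Finset.sum_add_distrib, Finset.mul_sum]
  refine Finset.sum_le_sum fun i _ => ?_
  rw [map_add]
  exact u1_add_le _ _

theorem en_sub_le (χ : ι → (Γ →+ UnitAddCircle)) (x y : Γ) :
    en χ (x - y) ≤ 2 * (en χ x + en χ y) := by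
  have := en_add_le χ x (-y)
  rwa [en_neg, ← sub_eq_add_neg] at this

variable [Fintype Γ]

omit [Fintype Γ] in
theorem exp_en (χ : ι → (Γ →+ UnitAddCircle)) (x : Γ) :
    Real.exp (-en χ x) =
      Real.exp (-(Fintype.card ι : ℝ)) * Real.exp (∑ i, 1 * (toAC (χ i) x).re) := by
  rw [← Real.exp_add]
  congr 1
  simp only [en, u1_char, Finset.sum_sub_distrib, Finset.sum_const, Finset.card_univ,
    nsmul_eq_mul, one_mul]
  ring

/-- the main lower bound -/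
theorem prod_bmp_ge (χ : ι → (Γ →+ UnitAddCircle)) :
    Real.exp (-(2 ^ 18 * ((∑ x, en χ x * Real.exp (-en χ x)) / ∑ x, Real.exp (-en χ x)))) *
      ∑ x, Real.exp (-en χ x) ≤ ∑ x, (∏ i, bmp (χ i) x) * Real.exp (-en χ x) := by
  have hh : PDc (fun x : Γ => ∑ i, 1 * (toAC (χ i) x).re) :=
    PDc.sum _ _ fun i _ => PDc.re 1 zero_le_one _
  have hc := Real.exp_pos (-(Fintype.card ι : ℝ))
  have h4 : 0 < ∑ x : Γ, Real.exp (∑ i, 1 * (toAC (χ i) x).re) :=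
    Finset.sum_pos (fun x _ => Real.exp_pos _) ⟨0, Finset.mem_univ 0⟩
  have h1 := ginibre_prod (Finset.univ : Finset ι) (fun i => bmp (χ i))
    (fun i _ => pdc_bmp' (χ i)) hh
  have h2 : ∏ i : ι, Real.exp (-(2 ^ 18 * ((∑ x, u1 (χ i x) *
      Real.exp (∑ i, 1 * (toAC (χ i) x).re)) / ∑ x, Real.exp (∑ i, 1 * (toAC (χ i) x).re)))) ≤
      ∏ i : ι, ((∑ x, bmp (χ i) x * Real.exp (∑ i, 1 * (toAC (χ i) x).re)) /
        ∑ x, Real.exp (∑ i, 1 * (toAC (χ i) x).re)) :=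
    Finset.prod_le_prod (fun i _ => (Real.exp_pos _).le) fun i _ => expect_bmp hh (χ i)
  rw [← Real.exp_sum] at h2
  have h3 : ∑ i : ι, (-(2 ^ 18 * ((∑ x, u1 (χ i x) *
      Real.exp (∑ i, 1 * (toAC (χ i) x).re)) / ∑ x, Real.exp (∑ i, 1 * (toAC (χ i) x).re)))) =
      -(2 ^ 18 * ((∑ x, en χ x * Real.exp (-en χ x)) / ∑ x, Real.exp (-en χ x))) := by
    simp only [exp_en]
    rw [Finset.sum_neg_distrib, ← Finset.mul_sum, ← Finset.sum_div, Finset.sum_comm]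
    congr 2
    rw [← Finset.mul_sum]
    have : ∑ x : Γ, en χ x * (Real.exp (-(Fintype.card ι : ℝ)) *
        Real.exp (∑ i, 1 * (toAC (χ i) x).re)) =
        Real.exp (-(Fintype.card ι : ℝ)) * ∑ x : Γ, ∑ i, u1 (χ i x) *
          Real.exp (∑ i, 1 * (toAC (χ i) x).re) := by
      rw [Finset.mul_sum]
      refine Finset.sum_congr rfl fun x _ => ?_
      rw [← Finset.sum_mul, en]
      ring
    rw [this, mul_div_mul_left _ _ hc.ne']
  rw [h3] at h2
  have h5 := (mul_le_mul_of_nonneg_right h2 h4.le).trans h1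
  have h6 : ∑ x, (∏ i, bmp (χ i) x) * Real.exp (-en χ x) =
      Real.exp (-(Fintype.card ι : ℝ)) *
        ∑ x, (∏ i, bmp (χ i) x) * Real.exp (∑ i, 1 * (toAC (χ i) x).re) := by
    rw [Finset.mul_sum]
    refine Finset.sum_congr rfl fun x _ => ?_
    rw [exp_en]
    ring
  have h7 : ∑ x : Γ, Real.exp (-en χ x) =
      Real.exp (-(Fintype.card ι : ℝ)) * ∑ x : Γ, Real.exp (∑ i, 1 * (toAC (χ i) x).re) := by
    rw [Finset.mul_sum]
    exact Finset.sum_congr rfl fun x _ => exp_en χ x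
  generalize Real.exp (-(2 ^ 18 * ((∑ x, en χ x * Real.exp (-en χ x)) /
    ∑ x, Real.exp (-en χ x)))) = E at h5 ⊢
  rw [h6, h7]
  calc E * (Real.exp (-(Fintype.card ι : ℝ)) *
        ∑ x : Γ, Real.exp (∑ i, 1 * (toAC (χ i) x).re))
      = Real.exp (-(Fintype.card ι : ℝ)) * (E *
        ∑ x : Γ, Real.exp (∑ i, 1 * (toAC (χ i) x).re)) := by ring
    _ ≤ _ := mul_le_mul_of_nonneg_left h5 hc.le

/-- Jensen -/
theorem mean_le (χ : ι → (Γ →+ UnitAddCircle)) (κ : ℝ)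
    (hκ : ∑ x, Real.exp (-en χ x / 2) ≤ κ * ∑ x, Real.exp (-en χ x)) :
    Real.exp (((∑ x, en χ x * Real.exp (-en χ x)) / ∑ x, Real.exp (-en χ x)) / 2) ≤ κ := by
  have h4 : 0 < ∑ x : Γ, Real.exp (-en χ x) :=
    Finset.sum_pos (fun x _ => Real.exp_pos _) ⟨0, Finset.mem_univ 0⟩
  have h1 := convexOn_exp.map_sum_le (t := (Finset.univ : Finset Γ))
    (w := fun x => Real.exp (-en χ x) / ∑ x, Real.exp (-en χ x)) (p := fun x => en χ x / 2)
    (fun x _ => div_nonneg (Real.exp_pos _).le h4.le)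
    (by rw [← Finset.sum_div, div_self h4.ne']) (fun x _ => Set.mem_univ _)
  simp only [smul_eq_mul] at h1
  have h2 : ∑ x, Real.exp (-en χ x) / (∑ x, Real.exp (-en χ x)) * (en χ x / 2) =
      ((∑ x, en χ x * Real.exp (-en χ x)) / ∑ x, Real.exp (-en χ x)) / 2 := by
    rw [Finset.sum_div, Finset.sum_div]
    refine Finset.sum_congr rfl fun x _ => ?_
    ring
  have h3 : ∑ x, Real.exp (-en χ x) / (∑ x, Real.exp (-en χ x)) * Real.exp (en χ x / 2) =
      (∑ x, Real.exp (-en χ x / 2)) / ∑ x, Real.exp (-en χ x) := by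
    rw [Finset.sum_div]
    refine Finset.sum_congr rfl fun x _ => ?_
    have : Real.exp (-en χ x / 2) = Real.exp (-en χ x) * Real.exp (en χ x / 2) := by
      rw [← Real.exp_add]
      congr 1
      ring
    rw [this]
    ring
  rw [h2, h3] at h1
  refine h1.trans ?_
  rw [div_le_iff₀ h4]
  exact hκ

/-- **Lemma A.** -/
theorem lemmaA (χ : ι → (Γ →+ UnitAddCircle)) (κ R₀ : ℝ)
    (hκ : ∑ x, Real.exp (-en χ x / 2) ≤ κ * ∑ x, Real.exp (-en χ x))
    (hR : 2 * κ ^ (2 ^ 19 + 1) ≤ Real.exp (R₀ / 2)) :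
    (∑ x, Real.exp (-en χ x)) / (2 * κ ^ (2 ^ 19)) ≤
      ({x : Γ | (∀ i, ‖χ i x‖ < 1 / 16) ∧ en χ x ≤ R₀}.ncard : ℝ) := by
  classical
  have h4 : 0 < ∑ x : Γ, Real.exp (-en χ x) :=
    Finset.sum_pos (fun x _ => Real.exp_pos _) ⟨0, Finset.mem_univ 0⟩
  have hκ0 : 0 < κ := lt_of_lt_of_le (Real.exp_pos _) (mean_le χ κ hκ)
  have h1 := prod_bmp_ge χ
  have h2 := mean_le χ κ hκ
  have h3 : (κ ^ (2 ^ 19))⁻¹ ≤ Real.exp (-(2 ^ 18 * ((∑ x, en χ x * Real.exp (-en χ x)) /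
      ∑ x, Real.exp (-en χ x)))) := by
    rw [Real.exp_neg]
    refine inv_anti₀ (Real.exp_pos _) ?_
    have h5 : Real.exp (2 ^ 18 * ((∑ x, en χ x * Real.exp (-en χ x)) /
        ∑ x, Real.exp (-en χ x))) = Real.exp (((∑ x, en χ x * Real.exp (-en χ x)) /
        ∑ x, Real.exp (-en χ x)) / 2) ^ (2 ^ 19) := by
      rw [← Real.exp_nat_mul]
      congr 1
      push_cast
      ring
    rw [h5]
    exact pow_le_pow_left₀ (Real.exp_pos _).le h2 _
  have h5 : (κ ^ (2 ^ 19))⁻¹ * ∑ x, Real.exp (-en χ x) ≤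
      ∑ x, (∏ i, bmp (χ i) x) * Real.exp (-en χ x) :=
    (mul_le_mul_of_nonneg_right h3 h4.le).trans h1
  have hp0 : ∀ x, 0 ≤ ∏ i, bmp (χ i) x := fun x => Finset.prod_nonneg fun i _ => bmp_nonneg _ _
  have hp1 : ∀ x, ∏ i, bmp (χ i) x ≤ 1 := fun x =>
    Finset.prod_le_one (fun i _ => bmp_nonneg _ _) fun i _ => bmp_le_one _ _
  -- pointwise bound
  have h6 : ∀ x, (∏ i, bmp (χ i) x) * Real.exp (-en χ x) ≤
      (if (∀ i, ‖χ i x‖ < 1 / 16) ∧ en χ x ≤ R₀ then (1 : ℝ) else 0) +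
        Real.exp (-R₀ / 2) * Real.exp (-en χ x / 2) := by
    intro x
    have hpos : 0 ≤ Real.exp (-R₀ / 2) * Real.exp (-en χ x / 2) := by positivity
    by_cases hx : ∀ i, ‖χ i x‖ < 1 / 16
    · by_cases hx' : en χ x ≤ R₀
      · rw [if_pos ⟨hx, hx'⟩]
        have : (∏ i, bmp (χ i) x) * Real.exp (-en χ x) ≤ 1 * 1 :=
          mul_le_mul (hp1 x) (Real.exp_le_one_iff.2 (by linarith [en_nonneg χ x]))
            (Real.exp_pos _).le zero_le_one
        linarith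
      · rw [if_neg (fun h => hx' h.2), zero_add]
        refine (mul_le_mul_of_nonneg_right (hp1 x) (Real.exp_pos _).le).trans ?_
        rw [one_mul, ← Real.exp_add]
        apply Real.exp_le_exp.2
        linarith [not_le.1 hx']
    · push Not at hx
      obtain ⟨i, hi⟩ := hx
      rw [Finset.prod_eq_zero (Finset.mem_univ i) (bmp_eq_zero (χ i) x hi), zero_mul]
      refine add_nonneg ?_ hpos
      split_ifs <;> norm_num
  have h7 : ∑ x, (∏ i, bmp (χ i) x) * Real.exp (-en χ x) ≤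
      ({x : Γ | (∀ i, ‖χ i x‖ < 1 / 16) ∧ en χ x ≤ R₀}.ncard : ℝ) +
        Real.exp (-R₀ / 2) * ∑ x, Real.exp (-en χ x / 2) := by
    refine (Finset.sum_le_sum fun x _ => h6 x).trans ?_
    rw [Finset.sum_add_distrib, ← Finset.mul_sum]
    refine add_le_add_left (le_of_eq ?_) _
    rw [Finset.sum_boole]
    congr 1
    rw [Set.ncard_eq_toFinset_card']
    congr 1
    ext x
    simp
  have h8 : Real.exp (-R₀ / 2) * ∑ x, Real.exp (-en χ x / 2) ≤
      (2 * κ ^ (2 ^ 19))⁻¹ * ∑ x, Real.exp (-en χ x) := by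
    have h9 : Real.exp (-R₀ / 2) ≤ (2 * κ ^ (2 ^ 19 + 1))⁻¹ := by
      rw [neg_div, Real.exp_neg]
      exact inv_anti₀ (by positivity) hR
    calc Real.exp (-R₀ / 2) * ∑ x, Real.exp (-en χ x / 2)
        ≤ (2 * κ ^ (2 ^ 19 + 1))⁻¹ * (κ * ∑ x, Real.exp (-en χ x)) :=
          mul_le_mul h9 hκ (Finset.sum_nonneg fun x _ => (Real.exp_pos _).le) (by positivity)
      _ = _ := by
        rw [pow_succ]
        field_simp
  have h9 : (κ ^ (2 ^ 19))⁻¹ * ∑ x, Real.exp (-en χ x) =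
      2 * ((2 * κ ^ (2 ^ 19))⁻¹ * ∑ x, Real.exp (-en χ x)) := by
    rw [mul_inv]
    ring
  have h10 : (∑ x, Real.exp (-en χ x)) / (2 * κ ^ (2 ^ 19)) =
      (2 * κ ^ (2 ^ 19))⁻¹ * ∑ x, Real.exp (-en χ x) := by
    rw [div_eq_mul_inv, mul_comm]
  rw [h10]
  linarith

end H24.ID
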