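import Pool.Agent.H24.ID.Bump
set_option autoImplicit false

/-! Schoenberg / Lévy–Khintchine on a finite abelian group. -/

namespace H24.ID

open Finset Filter
open scoped Topology

variable {Γ : Type*} [AddCommGroup Γ] [Fintype Γ]

omit [Fintype Γ] in
theorem exists_toAC [Finite Γ] (ψ : AddChar Γ ℂ) : ∃ χ : Γ →+ UnitAddCircle, toAC χ = ψ := by
  have h1 : ∀ x, ∃ a : UnitAddCircle, (AddCircle.toCircle a : ℂ) = ψ x := by
    intro x
    obtain ⟨a, ha⟩ := (AddCircle.homeomorphCircle (T := 1) one_ne_zero).surjective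
      ⟨ψ x, mem_sphere_zero_iff_norm.2 (AddChar.norm_apply ψ x)⟩
    refine ⟨a, ?_⟩
    rw [AddCircle.homeomorphCircle_apply] at ha
    rw [ha]
  choose χ hχ using h1
  refine ⟨AddMonoidHom.mk' χ fun x y => ?_, ?_⟩
  · apply AddCircle.injective_toCircle (T := 1) one_ne_zero
    apply Subtype.ext
    rw [AddCircle.toCircle_add, Circle.coe_mul, hχ, hχ, hχ, AddChar.map_add_eq_mul]
  · ext x
    exact hχ x

/-- nonnegative Fourier coefficients of a positive definite function -/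
theorem pd_coeff (g : Γ → ℝ) (hg : ∀ c : Γ → ℝ, 0 ≤ ∑ x, ∑ y, c x * c y * g (x - y))
    (ψ : AddChar Γ ℂ) : 0 ≤ ∑ z, g z * (ψ z).re := by
  have h1 := hg fun x => (ψ x).re
  have h2 := hg fun x => (ψ x).im
  have h3 : ∀ x y : Γ, (ψ x).re * (ψ y).re * g (x - y) + (ψ x).im * (ψ y).im * g (x - y) =
      g (x - y) * (ψ (x - y)).re := by
    intro x y
    rw [sub_eq_add_neg, AddChar.map_add_eq_mul, AddChar.map_neg_eq_conj, Complex.mul_re,
      Complex.conj_re, Complex.conj_im]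
    ring
  have h4 : ∑ x, ∑ y, g (x - y) * (ψ (x - y)).re =
      Fintype.card Γ * ∑ z, g z * (ψ z).re := by
    have h5 : ∀ x : Γ, ∑ y, g (x - y) * (ψ (x - y)).re = ∑ z, g z * (ψ z).re := by
      intro x
      exact Equiv.sum_comp (Equiv.subLeft x) (fun z => g z * (ψ z).re)
    rw [Finset.sum_congr rfl fun x _ => h5 x, Finset.sum_const, Finset.card_univ, nsmul_eq_mul]
  have h6 : 0 ≤ ∑ x, ∑ y, g (x - y) * (ψ (x - y)).re := by
    have : ∑ x, ∑ y, g (x - y) * (ψ (x - y)).re =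
        ∑ x, ∑ y, (ψ x).re * (ψ y).re * g (x - y) +
          ∑ x, ∑ y, (ψ x).im * (ψ y).im * g (x - y) := by
      rw [← Finset.sum_add_distrib]
      refine Finset.sum_congr rfl fun x _ => ?_
      rw [← Finset.sum_add_distrib]
      exact Finset.sum_congr rfl fun y _ => (h3 x y).symm
    rw [this]
    exact add_nonneg h1 h2
  rw [h4] at h6
  exact nonneg_of_mul_nonneg_right h6 (by exact_mod_cast Fintype.card_pos_iff.2 ⟨0⟩)

theorem sum_re_eq_zero (ψ : AddChar Γ ℂ) (hψ : ψ ≠ 0) : ∑ z, (ψ z).re = 0 := by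
  have h1 := AddChar.sum_eq_zero_iff_ne_zero.2 hψ
  have h2 := congrArg Complex.re h1
  simpa using h2

theorem log_coeff (f : Γ → ℝ) (hpos : ∀ x, 0 < f x)
    (hpd : ∀ t : ℝ, 0 < t → ∀ c : Γ → ℝ, 0 ≤ ∑ x, ∑ y, c x * c y * f (x - y) ^ t)
    (ψ : AddChar Γ ℂ) (hψ : ψ ≠ 0) : 0 ≤ ∑ z, Real.log (f z) * (ψ z).re := by
  have h1 : ∀ t : ℝ, 0 < t → 0 ≤ ∑ z, (t⁻¹ * (f z ^ t - 1)) * (ψ z).re := by
    intro t ht
    have h2 := pd_coeff (fun x => f x ^ t) (hpd t ht) ψ
    have h3 : ∑ z, (t⁻¹ * (f z ^ t - 1)) * (ψ z).re =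
        t⁻¹ * (∑ z, f z ^ t * (ψ z).re - ∑ z, (ψ z).re) := by
      rw [← Finset.sum_sub_distrib, Finset.mul_sum]
      refine Finset.sum_congr rfl fun z _ => ?_
      ring
    rw [h3, sum_re_eq_zero ψ hψ, sub_zero]
    exact mul_nonneg (inv_nonneg.2 ht.le) h2
  have h2 : Tendsto (fun t : ℝ => ∑ z, (t⁻¹ * (f z ^ t - 1)) * (ψ z).re) (𝓝[>] 0)
      (𝓝 (∑ z, Real.log (f z) * (ψ z).re)) := by
    refine tendsto_finsetSum _ fun z _ => Tendsto.mul_const _ ?_
    have h3 := (Real.hasStrictDerivAt_const_rpow (hpos z) 0).hasDerivAt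
    rw [Real.rpow_zero, one_mul, hasDerivAt_iff_tendsto_slope_zero] at h3
    have h4 : Tendsto (fun t : ℝ => t⁻¹ • (f z ^ (0 + t) - f z ^ (0 : ℝ))) (𝓝[>] 0)
        (𝓝 (Real.log (f z))) :=
      h3.mono_left (nhdsWithin_mono _ fun t (ht : 0 < t) => ht.ne')
    simpa using h4
  refine ge_of_tendsto h2 ?_
  filter_upwards [self_mem_nhdsWithin] with t ht
  exact h1 t ht

/-- Lévy–Khintchine representation -/
theorem levy (f : Γ → ℝ) (h0 : f 0 = 1) (hpos : ∀ x, 0 < f x) (hs : ∀ x, f (-x) = f x)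
    (hpd : ∀ t : ℝ, 0 < t → ∀ c : Γ → ℝ, 0 ≤ ∑ x, ∑ y, c x * c y * f (x - y) ^ t) :
    ∃ w : AddChar Γ ℂ → ℝ, (∀ ψ, 0 ≤ w ψ) ∧
      ∀ x, Real.log (f x) = -∑ ψ, w ψ * (1 - (ψ x).re) := by
  classical
  have hc : (0 : ℝ) < Fintype.card Γ := by exact_mod_cast Fintype.card_pos_iff.2 ⟨0⟩
  refine ⟨fun ψ => if ψ = 0 then 0 else (∑ z, Real.log (f z) * (ψ z).re) / Fintype.card Γ,
    fun ψ => ?_, fun x => ?_⟩
  · dsimp only
    split_ifs with h
    · exact le_rfl
    · exact div_nonneg (log_coeff f hpos hpd ψ h) hc.le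
  · have h1 : ∑ ψ : AddChar Γ ℂ, (if ψ = 0 then 0 else
        (∑ z, Real.log (f z) * (ψ z).re) / Fintype.card Γ) * (1 - (ψ x).re) =
        ∑ ψ : AddChar Γ ℂ, (∑ z, Real.log (f z) * (ψ z).re) / Fintype.card Γ *
          (1 - (ψ x).re) := by
      refine Finset.sum_congr rfl fun ψ _ => ?_
      split_ifs with h
      · rw [h]
        simp
      · rfl
    rw [h1]
    -- inversion
    have h2 : ∀ x : Γ, ∑ ψ : AddChar Γ ℂ, (∑ z, Real.log (f z) * (ψ z).re) * (ψ x).re =
        Fintype.card Γ * Real.log (f x) := by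
      intro x
      have h3 : ∀ z : Γ, ∑ ψ : AddChar Γ ℂ, (ψ z).re * (ψ x).re =
          ((if z + x = 0 then (Fintype.card Γ : ℝ) else 0) +
            (if z - x = 0 then (Fintype.card Γ : ℝ) else 0)) / 2 := by
        intro z
        have h4 : ∀ a : Γ, ∑ ψ : AddChar Γ ℂ, (ψ a).re =
            if a = 0 then (Fintype.card Γ : ℝ) else 0 := by
          intro a
          have := congrArg Complex.re (AddChar.sum_apply_eq_ite (α := Γ) a)
          rw [Complex.re_sum] at this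
          rw [this]
          split_ifs <;> simp
        rw [← h4, ← h4, ← Finset.sum_add_distrib, Finset.sum_div]
        refine Finset.sum_congr rfl fun ψ _ => ?_
        rw [sub_eq_add_neg, AddChar.map_add_eq_mul, AddChar.map_add_eq_mul,
          AddChar.map_neg_eq_conj, Complex.mul_re, Complex.mul_re, Complex.conj_re,
          Complex.conj_im]
        ring
      have h5 : ∑ ψ : AddChar Γ ℂ, (∑ z, Real.log (f z) * (ψ z).re) * (ψ x).re =
          ∑ z, Real.log (f z) * ∑ ψ : AddChar Γ ℂ, (ψ z).re * (ψ x).re := by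
        simp only [Finset.sum_mul, Finset.mul_sum]
        rw [Finset.sum_comm]
        refine Finset.sum_congr rfl fun z _ => Finset.sum_congr rfl fun ψ _ => ?_
        ring
      rw [h5]
      have h6 : ∀ z : Γ, Real.log (f z) * ∑ ψ : AddChar Γ ℂ, (ψ z).re * (ψ x).re =
          (if z = -x then Real.log (f x) * Fintype.card Γ / 2 else 0) +
          (if z = x then Real.log (f x) * Fintype.card Γ / 2 else 0) := by
        intro z
        rw [h3, add_eq_zero_iff_eq_neg, sub_eq_zero]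
        by_cases e1 : z = -x
        · by_cases e2 : z = x
          · rw [if_pos e1, if_pos e2, if_pos e1, if_pos e2, e2]
            ring
          · rw [if_pos e1, if_neg e2, if_pos e1, if_neg e2, e1, hs]
            ring
        · by_cases e2 : z = x
          · rw [if_neg e1, if_pos e2, if_neg e1, if_pos e2, e2]
            ring
          · rw [if_neg e1, if_neg e2, if_neg e1, if_neg e2]
            ring
      rw [Finset.sum_congr rfl fun z _ => h6 z, Finset.sum_add_distrib, Finset.sum_ite_eq',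
        Finset.sum_ite_eq', if_pos (Finset.mem_univ _), if_pos (Finset.mem_univ _)]
      ring
    have h3 := h2 0
    rw [h0, Real.log_one, mul_zero] at h3
    have h4 := h2 x
    have h5 : ∑ ψ : AddChar Γ ℂ, (∑ z, Real.log (f z) * (ψ z).re) / Fintype.card Γ *
        (1 - (ψ x).re) = (∑ ψ : AddChar Γ ℂ, (∑ z, Real.log (f z) * (ψ z).re) * (ψ 0).re -
        ∑ ψ : AddChar Γ ℂ, (∑ z, Real.log (f z) * (ψ z).re) * (ψ x).re) / Fintype.card Γ := by
      rw [← Finset.sum_sub_distrib, Finset.sum_div]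
      refine Finset.sum_congr rfl fun ψ _ => ?_
      rw [AddChar.map_zero_eq_one, Complex.one_re]
      ring
    rw [h5, h3, h4, zero_sub, neg_div, neg_neg, mul_div_cancel_left₀ _ hc.ne']

end H24.ID
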