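import Pool.Agent.H24.ID.LemmaA
set_option autoImplicit false

/-! Replacing real weights by a multiset of characters. -/

namespace H24.ID

open Finset

theorem exists_le_avg {O : Type*} [Fintype O] (p F : O → ℝ) (hp : ∀ o, 0 ≤ p o)
    (hp1 : ∑ o, p o = 1) : ∃ o, F o ≤ ∑ o, p o * F o := by
  by_contra hcon
  push Not at hcon
  have h1 : ∑ o, p o * (F o - ∑ o, p o * F o) = 0 := by
    simp only [mul_sub, Finset.sum_sub_distrib, ← Finset.sum_mul, hp1]
    ring
  have h2 : ∀ o ∈ Finset.univ, p o * (F o - ∑ o, p o * F o) = 0 :=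
    (Finset.sum_eq_zero_iff_of_nonneg
      fun o _ => mul_nonneg (hp o) (sub_nonneg.2 (hcon o).le)).1 h1
  have h3 : ∀ o, p o = 0 := by
    intro o
    rcases mul_eq_zero.1 (h2 o (Finset.mem_univ o)) with h | h
    · exact h
    · exact absurd h (sub_pos.2 (hcon o)).ne'
  rw [Finset.sum_congr rfl fun o _ => h3 o] at hp1
  simp at hp1

/-- method of conditional expectations -/
theorem sampling {O X Y : Type*} [Fintype O] [Fintype X] (t : Finset Y) (p : O → ℝ)
    (hp : ∀ o, 0 ≤ p o) (hp1 : ∑ o, p o = 1) (h : O → X → ℝ) (u : O → Y → ℝ) (b : ℝ) (m : ℕ) :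
    ∀ c : X → ℝ, ∃ s : Fin m → O,
      ∑ x, c x * ∏ j, h (s j) x + b * ∑ y ∈ t, ∑ j, u (s j) y ≤
      ∑ x, c x * (∑ o, p o * h o x) ^ m + b * ∑ y ∈ t, m * ∑ o, p o * u o y := by
  induction m with
  | zero =>
    intro c
    refine ⟨Fin.elim0, ?_⟩
    simp
  | succ m ih =>
    intro c
    obtain ⟨o, ho⟩ := exists_le_avg p (fun o => ∑ x, (c x * h o x) * (∑ o, p o * h o x) ^ m +
      b * (∑ y ∈ t, m * ∑ o, p o * u o y) + b * ∑ y ∈ t, u o y) hp hp1
    obtain ⟨s, hs⟩ := ih (fun x => c x * h o x)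
    refine ⟨Fin.cons o s, ?_⟩
    simp only [Fin.prod_univ_succ, Fin.sum_univ_succ, Fin.cons_zero, Fin.cons_succ]
    have h1 : ∑ x, c x * (h o x * ∏ j, h (s j) x) = ∑ x, c x * h o x * ∏ j, h (s j) x :=
      Finset.sum_congr rfl fun x _ => by ring
    rw [h1, Finset.sum_add_distrib, mul_add]
    have h2 : ∑ o, p o * (∑ x, (c x * h o x) * (∑ o, p o * h o x) ^ m +
        b * (∑ y ∈ t, m * ∑ o, p o * u o y) + b * ∑ y ∈ t, u o y) =
        ∑ x, c x * (∑ o, p o * h o x) ^ (m + 1) +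
          b * ∑ y ∈ t, ((m + 1 : ℕ) : ℝ) * ∑ o, p o * u o y := by
      simp only [mul_add, Finset.sum_add_distrib, ← Finset.sum_mul, hp1, one_mul]
      have e1 : ∑ o, p o * ∑ x, (c x * h o x) * (∑ o, p o * h o x) ^ m =
          ∑ x, c x * (∑ o, p o * h o x) ^ (m + 1) := by
        simp only [Finset.mul_sum]
        rw [Finset.sum_comm]
        refine Finset.sum_congr rfl fun x _ => ?_
        rw [pow_succ, ← mul_assoc, mul_comm (c x * _) (∑ o, p o * h o x), Finset.sum_mul]
        refine Finset.sum_congr rfl fun o _ => ?_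
        ring
      have e2 : ∑ o, p o * (b * ∑ y ∈ t, u o y) = b * ∑ y ∈ t, ∑ o, p o * u o y := by
        simp only [Finset.mul_sum]
        rw [Finset.sum_comm]
        refine Finset.sum_congr rfl fun x _ => Finset.sum_congr rfl fun o _ => ?_
        ring
      rw [e1, e2]
      simp only [← Finset.mul_sum]
      push_cast
      ring
    rw [h2] at ho
    linarith

variable {Γ : Type*} [AddCommGroup Γ] [Fintype Γ] {ι : Type*} [Fintype ι]

theorem one_sub_exp_ge {u : ℝ} (h0 : 0 ≤ u) (h2 : u ≤ 2) : u / 4 ≤ 1 - Real.exp (-u / 2) := by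
  have h6 : Real.exp (-u / 2) ≤ (1 + u / 2)⁻¹ := by
    rw [neg_div, Real.exp_neg]
    refine inv_anti₀ (by positivity) ?_
    linarith [Real.add_one_le_exp (u / 2)]
  have h7 : (1 + u / 2)⁻¹ ≤ 1 - u / 4 := by
    rw [inv_le_iff_one_le_mul₀ (by positivity)]
    nlinarith
  linarith

/-- real weights to integer weights -/
theorem exists_family (χ : ι → (Γ →+ UnitAddCircle)) (w : ι → ℝ) (hw : ∀ i, 0 ≤ w i)
    (A₁ : Finset Γ) (hA₁ : A₁.Nonempty) (R M : ℝ) (hM : 0 < M) (hR : 0 < R)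
    (hA : ∀ a ∈ A₁, ∑ i, w i * u1 (χ i a) ≤ R)
    (hsum : ∑ x, Real.exp (-∑ i, w i * u1 (χ i x)) ≤ M) :
    ∃ (m : ℕ) (η : Fin m → (Γ →+ UnitAddCircle)),
      ∑ x, Real.exp (-en η x / 2) ≤ 2 * M ∧
      (A₁.card : ℝ) ≤ 2 * (A₁.filter fun a => en η a ≤ 40 * R).card := by
  classical
  have hW : 0 ≤ ∑ i, w i := Finset.sum_nonneg fun i _ => hw i
  obtain ⟨m, hm⟩ := exists_nat_ge (4 * (∑ i, w i) + 1)
  have hm0 : (0 : ℝ) < m := by linarith
  let p : Option ι → ℝ := fun o => o.elim (1 - 4 * (∑ i, w i) / m) fun i => 4 * w i / m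
  let χ' : Option ι → (Γ →+ UnitAddCircle) := fun o => o.elim 0 χ
  have hp : ∀ o, 0 ≤ p o := by
    intro o
    cases o with
    | none =>
      simp only [p, Option.elim_none]
      rw [sub_nonneg, div_le_one hm0]
      linarith
    | some i =>
      simp only [p, Option.elim_some]
      have := hw i
      positivity
  have hp1 : ∑ o, p o = 1 := by
    rw [Fintype.sum_option]
    simp only [p, Option.elim_none, Option.elim_some]
    rw [← Finset.sum_div, ← Finset.mul_sum]
    ring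
  have hc1 : (0 : ℝ) < A₁.card := by exact_mod_cast hA₁.card_pos
  obtain ⟨s, hs⟩ := sampling (X := Γ) A₁ p hp hp1
    (fun o x => Real.exp (-u1 (χ' o x) / 2)) (fun o x => u1 (χ' o x))
    (1 / (10 * A₁.card * R)) m (fun _ => 1 / M)
  refine ⟨m, fun j => χ' (s j), ?_⟩
  have h1 : ∀ x, ∏ j, Real.exp (-u1 (χ' (s j) x) / 2) =
      Real.exp (-en (fun j => χ' (s j)) x / 2) := by
    intro x
    rw [← Real.exp_sum, en, ← Finset.sum_div, Finset.sum_neg_distrib]
  have h2 : ∀ x, (∑ o, p o * Real.exp (-u1 (χ' o x) / 2)) ^ m ≤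
      Real.exp (-∑ i, w i * u1 (χ i x)) := by
    intro x
    have e1 : ∑ o, p o * Real.exp (-u1 (χ' o x) / 2) ≤
        1 - (∑ i, w i * u1 (χ i x)) / m := by
      rw [Fintype.sum_option]
      simp only [p, χ', Option.elim_none, Option.elim_some, AddMonoidHom.zero_apply, u1_zero,
        neg_zero, zero_div, Real.exp_zero, mul_one]
      have e2 : ∀ i, 4 * w i / m * Real.exp (-u1 (χ i x) / 2) ≤
          4 * w i / m - w i * u1 (χ i x) / m := by
        intro i
        have e3 := one_sub_exp_ge (u1_nonneg (χ i x)) (u1_le_two (χ i x))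
        have e5 : Real.exp (-u1 (χ i x) / 2) ≤ 1 - u1 (χ i x) / 4 := by linarith
        have e6 : 0 ≤ 4 * w i / m := by have := hw i; positivity
        calc 4 * w i / m * Real.exp (-u1 (χ i x) / 2)
            ≤ 4 * w i / m * (1 - u1 (χ i x) / 4) := mul_le_mul_of_nonneg_left e5 e6
          _ = _ := by ring
      have e3 := Finset.sum_le_sum fun i (_ : i ∈ Finset.univ) => e2 i
      rw [Finset.sum_sub_distrib, ← Finset.sum_div, ← Finset.sum_div, ← Finset.mul_sum] at e3
      linarith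
    have e0 : 0 ≤ ∑ o, p o * Real.exp (-u1 (χ' o x) / 2) :=
      Finset.sum_nonneg fun o _ => mul_nonneg (hp o) (Real.exp_pos _).le
    have e2 : ∑ o, p o * Real.exp (-u1 (χ' o x) / 2) ≤
        Real.exp (-((∑ i, w i * u1 (χ i x)) / m)) := by
      refine e1.trans ?_
      have := Real.add_one_le_exp (-((∑ i, w i * u1 (χ i x)) / m))
      linarith
    calc (∑ o, p o * Real.exp (-u1 (χ' o x) / 2)) ^ m
        ≤ Real.exp (-((∑ i, w i * u1 (χ i x)) / m)) ^ m := pow_le_pow_left₀ e0 e2 m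
      _ = Real.exp (-∑ i, w i * u1 (χ i x)) := by
        rw [← Real.exp_nat_mul]
        congr 1
        field_simp
  have h3 : ∀ y ∈ A₁, (m : ℝ) * ∑ o, p o * u1 (χ' o y) ≤ 10 * R := by
    intro y hy
    rw [Fintype.sum_option]
    simp only [p, χ', Option.elim_none, Option.elim_some, AddMonoidHom.zero_apply, u1_zero,
      mul_zero, zero_add]
    have e1 : (m : ℝ) * ∑ i, 4 * w i / m * u1 (χ i y) = 4 * ∑ i, w i * u1 (χ i y) := by
      rw [Finset.mul_sum, Finset.mul_sum]
      refine Finset.sum_congr rfl fun i _ => ?_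
      field_simp
    rw [e1]
    linarith [hA y hy]
  have h4 : ∑ x, 1 / M * (∑ o, p o * Real.exp (-u1 (χ' o x) / 2)) ^ m ≤ 1 := by
    rw [← Finset.mul_sum, one_div, inv_mul_le_iff₀ hM, mul_one]
    exact (Finset.sum_le_sum fun x _ => h2 x).trans hsum
  have h5 : 1 / (10 * A₁.card * R) * ∑ y ∈ A₁, (m : ℝ) * ∑ o, p o * u1 (χ' o y) ≤ 1 := by
    rw [one_div, inv_mul_le_iff₀ (by positivity), mul_one]
    refine (Finset.sum_le_sum h3).trans ?_
    rw [Finset.sum_const, nsmul_eq_mul]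
    linarith
  simp only [h1] at hs
  have h6 : ∑ x, 1 / M * Real.exp (-en (fun j => χ' (s j)) x / 2) +
      1 / (10 * A₁.card * R) * ∑ y ∈ A₁, en (fun j => χ' (s j)) y ≤ 2 := by
    have : ∑ y ∈ A₁, en (fun j => χ' (s j)) y = ∑ y ∈ A₁, ∑ j, u1 (χ' (s j) y) := rfl
    rw [this]
    linarith
  have h7 : 0 ≤ 1 / (10 * A₁.card * R) * ∑ y ∈ A₁, en (fun j => χ' (s j)) y :=
    mul_nonneg (by positivity) (Finset.sum_nonneg fun y _ => en_nonneg _ _)
  have h8 : 0 ≤ ∑ x, 1 / M * Real.exp (-en (fun j => χ' (s j)) x / 2) :=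
    Finset.sum_nonneg fun x _ => by positivity
  constructor
  · have h9 : ∑ x, 1 / M * Real.exp (-en (fun j => χ' (s j)) x / 2) ≤ 2 := by linarith
    rw [← Finset.mul_sum, one_div, inv_mul_le_iff₀ hM] at h9
    linarith
  · have h9 : 1 / (10 * A₁.card * R) * ∑ y ∈ A₁, en (fun j => χ' (s j)) y ≤ 2 := by linarith
    rw [one_div, inv_mul_le_iff₀ (by positivity)] at h9
    -- Markov
    have h10 : 40 * R * ((A₁.filter fun a => ¬ en (fun j => χ' (s j)) a ≤ 40 * R).card : ℝ) ≤
        ∑ y ∈ A₁, en (fun j => χ' (s j)) y := by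
      calc 40 * R * ((A₁.filter fun a => ¬ en (fun j => χ' (s j)) a ≤ 40 * R).card : ℝ)
          = ∑ a ∈ A₁.filter fun a => ¬ en (fun j => χ' (s j)) a ≤ 40 * R, 40 * R := by
            rw [Finset.sum_const, nsmul_eq_mul]
            ring
        _ ≤ ∑ a ∈ A₁.filter fun a => ¬ en (fun j => χ' (s j)) a ≤ 40 * R,
              en (fun j => χ' (s j)) a := by
            refine Finset.sum_le_sum fun a ha => ?_
            rw [Finset.mem_filter] at ha
            exact (not_le.1 ha.2).le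
        _ ≤ _ := Finset.sum_le_sum_of_subset_of_nonneg (Finset.filter_subset _ _)
            fun _ _ _ => en_nonneg _ _
    have h11 := Finset.card_filter_add_card_filter_not (s := A₁)
      (fun a => en (fun j => χ' (s j)) a ≤ 40 * R)
    have h12 : ((A₁.filter fun a => en (fun j => χ' (s j)) a ≤ 40 * R).card : ℝ) +
        ((A₁.filter fun a => ¬ en (fun j => χ' (s j)) a ≤ 40 * R).card : ℝ) = A₁.card := by
      exact_mod_cast h11
    have h13 : ((A₁.filter fun a => ¬ en (fun j => χ' (s j)) a ≤ 40 * R).card : ℝ) ≤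
        A₁.card / 2 := by
      have h14 := h10.trans h9
      have : 40 * R * ((A₁.filter fun a => ¬ en (fun j => χ' (s j)) a ≤ 40 * R).card : ℝ) ≤
          40 * R * (A₁.card / 2) := by linarith
      exact le_of_mul_le_mul_left this (by positivity)
    linarith

end H24.ID
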